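import Pool.Agent.Lib.MP_21ae8a_lc.BC.Defs
import Pool.Agent.Lib.MP_21ae8a_lc.MC.Base

/-! Rows, rectangles and truncated likelihood ratios for the directed model. -/

namespace Pool.Agent.Lib.MP_21ae8a_lc.BC

open Finset Function MC
open scoped BigOperators

variable {n k : ℕ}

/-- A row: the set of cells holding a one. -/
abbrev Row (n k : ℕ) : Type := Finset (Fin k × Fin n)

/-- A product set of inputs. -/
abbrev Rect (n k : ℕ) : Type := Fin n → Finset (Row n k)

/-- The cells in the columns `T`. -/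
def cl (k : ℕ) (T : Finset (Fin n)) : Row n k := univ ×ˢ T

/-- Planting in the directed model. -/
def plantD (S : Finset (Fin n)) (x : Fin n → Row n k) : Fin n → Row n k :=
  fun i => if i ∈ S then x i ∪ cl k (S.erase i) else x i

noncomputable def pr (A : Finset (Row n k)) : ℝ := 𝔼 x, ind (x ∈ A)

noncomputable def lam (T : Finset (Fin n)) (A : Finset (Row n k)) : ℝ :=
  (𝔼 x, dens (cl k T) x * ind (x ∈ A)) / pr A

noncomputable def lt (M : ℝ) (T : Finset (Fin n)) (A : Finset (Row n k)) : ℝ :=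
  if lam T A ≤ M then lam T A else 0

noncomputable def PR (R : Rect n k) : ℝ := ∏ j, pr (R j)

noncomputable def wt (M : ℝ) (I S : Finset (Fin n)) (R : Rect n k) : ℝ :=
  ∏ j, if j ∈ S \ I then lt M (S.erase j) (R j) else 1

noncomputable def g (K : ℝ) (c : ℕ) : ℝ := if 2 ≤ c then K ^ c else 1

def mult {ρ : ℕ} (S : Fin ρ → Finset (Fin n)) (j : Fin n) : ℕ := #{a | j ∈ S a}

theorem one_le_g {K : ℝ} (hK : 1 ≤ K) (c : ℕ) : 1 ≤ g K c := by
  unfold g; split_ifs
  · exact one_le_pow₀ hK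
  · exact le_rfl

theorem g_mono {K : ℝ} (hK : 1 ≤ K) {c c' : ℕ} (h : c ≤ c') : g K c ≤ g K c' := by
  by_cases hc : 2 ≤ c
  · rw [g, g, if_pos hc, if_pos (hc.trans h)]
    exact pow_le_pow_right₀ hK h
  · rw [g, if_neg hc]; exact one_le_g hK _

theorem g_mul (K L : ℝ) (c : ℕ) : g K c * g L c = g (K * L) c := by
  unfold g; split_ifs <;> simp [mul_pow]

theorem g_pow (K : ℝ) (c q : ℕ) : g K c ^ q = g (K ^ q) c := by
  unfold g; split_ifs <;> simp [← pow_mul, mul_comm]

theorem pr_nonneg (A : Finset (Row n k)) : 0 ≤ pr A := expect_nonneg fun _ _ => ind_nonneg _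

theorem pr_le_one (A : Finset (Row n k)) : pr A ≤ 1 :=
  expect_le univ_nonempty fun _ _ => ind_le_one _

theorem pr_univ : pr (univ : Finset (Row n k)) = 1 := by
  simp [pr, ind]

theorem pr_mul_lam (T : Finset (Fin n)) (A : Finset (Row n k)) :
    pr A * lam T A = 𝔼 x, dens (cl k T) x * ind (x ∈ A) := by
  rcases A.eq_empty_or_nonempty with rfl | ⟨x, hx⟩
  · simp [pr, ind]
  · have : 0 < pr A := expect_pos' (fun _ _ => ind_nonneg _)
      ⟨x, mem_univ _, by rw [ind_pos hx]; exact one_pos⟩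
    rw [lam, mul_div_cancel₀ _ this.ne']

theorem lam_nonneg (T : Finset (Fin n)) (A : Finset (Row n k)) : 0 ≤ lam T A :=
  div_nonneg (expect_nonneg fun _ _ => mul_nonneg (dens_nonneg _ _) (ind_nonneg _)) (pr_nonneg _)

theorem lam_univ (T : Finset (Fin n)) : lam T (univ : Finset (Row n k)) = 1 := by
  simp [lam, pr_univ, ind, avg_dens]

theorem lt_nonneg (M : ℝ) (T : Finset (Fin n)) (A : Finset (Row n k)) : 0 ≤ lt M T A := by
  unfold lt; split_ifs
  · exact lam_nonneg _ _
  · exact le_rfl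

theorem lt_le_lam (M : ℝ) (T : Finset (Fin n)) (A : Finset (Row n k)) : lt M T A ≤ lam T A := by
  unfold lt; split_ifs
  · exact le_rfl
  · exact lam_nonneg _ _

theorem lt_le {M : ℝ} (hM : 0 ≤ M) (T : Finset (Fin n)) (A : Finset (Row n k)) :
    lt M T A ≤ M := by
  unfold lt; split_ifs with h
  · exact h
  · exact hM

theorem PR_nonneg (R : Rect n k) : 0 ≤ PR R := prod_nonneg fun _ _ => pr_nonneg _

theorem wt_nonneg (M : ℝ) (I S : Finset (Fin n)) (R : Rect n k) : 0 ≤ wt M I S R :=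
  prod_nonneg fun _ _ => by
    split_ifs
    · exact lt_nonneg _ _ _
    · exact zero_le_one

theorem ind_forall {ι : Type} [Fintype ι] (p : ι → Prop) : ind (∀ j, p j) = ∏ j, ind (p j) := by
  by_cases h : ∀ j, p j
  · rw [ind_pos h, prod_eq_one fun j _ => ind_pos (h j)]
  · obtain ⟨j, hj⟩ := not_forall.1 h
    rw [ind_neg h, prod_eq_zero (mem_univ j) (ind_neg hj)]

end Pool.Agent.Lib.MP_21ae8a_lc.BC
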