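import Pool.Agent.Lib.MP_21ae8a_lc.BC.Basic

/-! Moments of the likelihood ratio of one row for a uniform set of planted columns. -/

namespace Pool.Agent.Lib.MP_21ae8a_lc.BC

open Finset Function MC
open scoped BigOperators

variable {n k : ℕ}

/-- The centred density of one planted column. -/
noncomputable def yv (j : Fin n) (x : Row n k) : ℝ := dens (cl k {j}) x - 1

/-- The mass of a set of rows after planting the columns `B`. -/
noncomputable def ms (B : Finset (Fin n)) (R : Finset (Row n k)) : ℝ :=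
  𝔼 x, dens (cl k B) x * ind (x ∈ R)

theorem card_cl (B : Finset (Fin n)) : #(cl k B) = k * #B := by simp [cl]

theorem dens_cl_union {j : Fin n} {B : Finset (Fin n)} (h : j ∉ B) (x : Row n k) :
    dens (cl k B) (x ∪ cl k {j}) = dens (cl k B) x := by
  rw [MC.dens, MC.dens]
  congr 1
  refine ind_congr ⟨fun h' p hp => ?_, fun h' => h'.trans subset_union_left⟩
  refine (mem_union.1 (h' hp)).resolve_right fun h2 => h ?_
  rw [← mem_singleton.1 (mem_product.1 h2).2]
  exact (mem_product.1 hp).2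

theorem dens_cl_insert {j : Fin n} {B : Finset (Fin n)} (h : j ∉ B) (x : Row n k) :
    dens (cl k (insert j B)) x = dens (cl k B) x * (1 + yv j x) := by
  have h1 : cl k (insert j B) ⊆ x ↔ cl k B ⊆ x ∧ cl k {j} ⊆ x := by
    rw [← union_subset_iff, cl, cl, cl, ← product_union, union_comm, ← insert_eq]
  rw [yv, add_sub_cancel, MC.dens, MC.dens, MC.dens, ind_congr h1, ind_and, card_cl, card_cl,
    card_cl, card_insert_of_notMem h, card_singleton]
  ring

theorem yv_ge (j : Fin n) (x : Row n k) : -1 ≤ yv j x := by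
  linarith [dens_nonneg (cl k {j}) x, show yv j x = dens (cl k {j}) x - 1 from rfl]

theorem yv_le (j : Fin n) (x : Row n k) : yv j x ≤ 2 ^ k - 1 := by
  have := dens_le (cl k {j}) x
  rw [card_cl, card_singleton, mul_one] at this
  linarith [show yv j x = dens (cl k {j}) x - 1 from rfl]

theorem abs_yv (j : Fin n) (x : Row n k) : |yv j x| ≤ 2 ^ k :=
  abs_le.2 ⟨by linarith [yv_ge j x, one_le_pow₀ (one_le_two (α := ℝ)) (n := k)],
    by linarith [yv_le j x]⟩

theorem avg_lin (B : Finset (Fin n)) (c t : Fin n → ℝ) (W : Finset (Fin n)) (hW : Disjoint W B) :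
    𝔼 x : Row n k, dens (cl k B) x * ∏ j ∈ W, (c j + t j * yv j x) = ∏ j ∈ W, c j := by
  induction W using Finset.induction_on with
  | empty => simp [avg_dens]
  | insert j W hj ih =>
    rw [disjoint_insert_left] at hW
    have h1 := avg_union (cl k {j}) fun x => dens (cl k B) x * ∏ j ∈ W, (c j + t j * yv j x)
    have h2 : ∀ x : Row n k, dens (cl k B) (x ∪ cl k {j}) *
        ∏ i ∈ W, (c i + t i * yv i (x ∪ cl k {j})) =
        dens (cl k B) x * ∏ i ∈ W, (c i + t i * yv i x) := fun x => by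
      rw [dens_cl_union hW.1]
      congr 1
      refine prod_congr rfl fun i hi => ?_
      rw [yv, yv, dens_cl_union (notMem_singleton.2 (ne_of_mem_of_not_mem hi hj).symm)]
    simp only [h2, ih hW.2] at h1
    have h3 : ∀ x : Row n k, dens (cl k B) x * ∏ i ∈ insert j W, (c i + t i * yv i x) =
        (c j - t j) * (dens (cl k B) x * ∏ i ∈ W, (c i + t i * yv i x)) +
        t j * (dens (cl k {j}) x * (dens (cl k B) x * ∏ i ∈ W, (c i + t i * yv i x))) :=
      fun x => by rw [prod_insert hj, yv]; ring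
    rw [expect_congr rfl fun x _ => h3 x, expect_add_distrib, ← mul_expect, ← mul_expect, ← h1,
      ih hW.2, prod_insert hj]
    ring

theorem mgf (B W : Finset (Fin n)) (hW : Disjoint W B) (t : Fin n → ℝ)
    (ht : ∀ j ∈ W, |t j| * 2 ^ k ≤ 1) :
    𝔼 x : Row n k, dens (cl k B) x * Real.exp (∑ j ∈ W, t j * yv j x) ≤
      Real.exp (4 ^ k * ∑ j ∈ W, t j ^ 2) := by
  have h4 : (4 : ℝ) ^ k = (2 ^ k) ^ 2 := by rw [← pow_mul, mul_comm, pow_mul]; norm_num
  calc 𝔼 x : Row n k, dens (cl k B) x * Real.exp (∑ j ∈ W, t j * yv j x)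
      ≤ 𝔼 x : Row n k, dens (cl k B) x * ∏ j ∈ W, (1 + 4 ^ k * t j ^ 2 + t j * yv j x) := by
        refine expect_le_expect fun x _ => mul_le_mul_of_nonneg_left ?_ (dens_nonneg _ _)
        rw [Real.exp_sum]
        refine prod_le_prod (fun _ _ => (Real.exp_pos _).le) fun j hj => ?_
        have h1 : |t j * yv j x| ≤ |t j| * 2 ^ k := by
          rw [abs_mul]; exact mul_le_mul_of_nonneg_left (abs_yv j x) (abs_nonneg _)
        have h2 := (abs_le.1 (Real.abs_exp_sub_one_sub_id_le (h1.trans (ht j hj)))).2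
        have h3 : (t j * yv j x) ^ 2 ≤ (|t j| * 2 ^ k) ^ 2 :=
          sq_le_sq' (by linarith [(abs_le.1 h1).1]) (abs_le.1 h1).2
        rw [mul_pow |t j|, sq_abs] at h3
        rw [h4]
        linarith
    _ = ∏ j ∈ W, (1 + 4 ^ k * t j ^ 2) := avg_lin B _ t W hW
    _ ≤ _ := by
        rw [mul_sum, Real.exp_sum]
        exact prod_le_prod (fun _ _ => by positivity) fun j _ => by
          linarith [Real.add_one_le_exp (4 ^ k * t j ^ 2)]

theorem ms_nonneg (B : Finset (Fin n)) (R : Finset (Row n k)) : 0 ≤ ms B R :=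
  expect_nonneg fun _ _ => mul_nonneg (dens_nonneg _ _) (ind_nonneg _)

/-- The mean of a function for the planted measure on `R`, not normalised. -/
noncomputable def mn (B : Finset (Fin n)) (R : Finset (Row n k)) (f : Row n k → ℝ) : ℝ :=
  𝔼 x, dens (cl k B) x * ind (x ∈ R) * f x

theorem mn_le {B : Finset (Fin n)} {R : Finset (Row n k)} {f : Row n k → ℝ} {c : ℝ}
    (h : ∀ x ∈ R, cl k B ⊆ x → f x ≤ c) : mn B R f ≤ ms B R * c := by
  rw [mn, ms, expect_mul]
  refine expect_le_expect fun x _ => ?_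
  by_cases h1 : x ∈ R
  · by_cases h2 : cl k B ⊆ x
    · exact mul_le_mul_of_nonneg_left (h x h1 h2) (mul_nonneg (dens_nonneg _ _) (ind_nonneg _))
    · simp [MC.dens, ind_neg h2]
  · simp [ind_neg h1]

theorem mn_neg (B : Finset (Fin n)) (R : Finset (Row n k)) (f : Row n k → ℝ) :
    mn B R (fun x => -f x) = -mn B R f := by
  simp only [mn, mul_neg, expect_neg_distrib]

theorem mn_sum (B W : Finset (Fin n)) (R : Finset (Row n k)) (t : Fin n → ℝ) :
    mn B R (fun x => ∑ j ∈ W, t j * yv j x) = ∑ j ∈ W, t j * mn B R (yv j) := by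
  simp only [mn, mul_sum, expect_sum_comm, mul_expect]
  exact sum_congr rfl fun j _ => expect_congr rfl fun x _ => by ring

theorem ms_insert {j : Fin n} {B : Finset (Fin n)} (h : j ∉ B) (R : Finset (Row n k)) :
    ms (insert j B) R = ms B R + mn B R (yv j) := by
  rw [ms, ms, mn, ← expect_add_distrib]
  exact expect_congr rfl fun x _ => by rw [dens_cl_insert h]; ring

theorem bias_mem {B : Finset (Fin n)} {R : Finset (Row n k)} (ha : 0 < ms B R) (j : Fin n) :
    -1 ≤ mn B R (yv j) / ms B R ∧ mn B R (yv j) / ms B R ≤ 2 ^ k - 1 := by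
  have h1 := mn_le (B := B) (R := R) (f := fun x => -yv j x) (c := 1)
    fun x _ _ => by linarith [yv_ge j x]
  have h2 := mn_le (B := B) (R := R) (f := yv j) fun x _ _ => yv_le j x
  rw [mn_neg] at h1
  rw [le_div_iff₀ ha, div_le_iff₀ ha]
  constructor <;> linarith

theorem level_one {B : Finset (Fin n)} {R : Finset (Row n k)} (ha : 0 < ms B R)
    (W : Finset (Fin n)) (hW : Disjoint W B) :
    ∑ j ∈ W, (mn B R (yv j) / ms B R) ^ 2 ≤ 4 * 4 ^ k * -Real.log (ms B R) := by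
  obtain ⟨b, hb⟩ : ∃ b : Fin n → ℝ, b = fun j => mn B R (yv j) / ms B R := ⟨_, rfl⟩
  obtain ⟨S, hS⟩ : ∃ S, S = ∑ j ∈ W, b j ^ 2 := ⟨_, rfl⟩
  have h4 : (4 : ℝ) ^ k = 2 ^ k * 2 ^ k := by rw [← mul_pow]; norm_num
  have hp : (0 : ℝ) < 4 ^ k := by positivity
  have h1 := mgf (k := k) B W hW (fun j => b j / (2 * 4 ^ k)) fun j _ => by
    have h2 := bias_mem ha j
    have h3 : |b j| ≤ 2 ^ k := by
      rw [hb]
      exact abs_le.2 ⟨by linarith [h2.1, one_le_pow₀ (one_le_two (α := ℝ)) (n := k)],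
        by linarith [h2.2]⟩
    rw [abs_div, abs_of_pos (by positivity : (0 : ℝ) < 2 * 4 ^ k), div_mul_eq_mul_div,
      div_le_one (by positivity), h4]
    nlinarith [pow_pos (two_pos (α := ℝ)) k]
  have h2 : (4 : ℝ) ^ k * ∑ j ∈ W, (b j / (2 * 4 ^ k)) ^ 2 = S / (4 * 4 ^ k) := by
    simp only [hS, div_pow, ← sum_div]
    field_simp
    norm_num
  have h3 : mn B R (fun x => ∑ j ∈ W, b j / (2 * 4 ^ k) * yv j x) =
      ms B R * (S / (2 * 4 ^ k)) := by
    rw [mn_sum, hS, sum_div, mul_sum]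
    refine sum_congr rfl fun j _ => ?_
    rw [hb]
    field_simp
  have h5 : ms B R * Real.exp (S / (2 * 4 ^ k)) ≤ 𝔼 x : Row n k,
      dens (cl k B) x * Real.exp (∑ j ∈ W, b j / (2 * 4 ^ k) * yv j x) := by
    have h6 : ms B R * Real.exp (S / (2 * 4 ^ k)) = Real.exp (S / (2 * 4 ^ k)) *
        (ms B R * (1 - S / (2 * 4 ^ k)) +
          mn B R fun x => ∑ j ∈ W, b j / (2 * 4 ^ k) * yv j x) := by rw [h3]; ring
    rw [h6, ms, mn, expect_mul, ← expect_add_distrib, mul_expect]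
    refine expect_le_expect fun x _ => ?_
    obtain ⟨z, hz⟩ : ∃ z, z = ∑ j ∈ W, b j / (2 * 4 ^ k) * yv j x := ⟨_, rfl⟩
    rw [← hz]
    have h7 : Real.exp (S / (2 * 4 ^ k)) * (1 - S / (2 * 4 ^ k) + z) ≤ Real.exp z := by
      have := mul_le_mul_of_nonneg_left (Real.add_one_le_exp (z - S / (2 * 4 ^ k)))
        (Real.exp_pos (S / (2 * 4 ^ k))).le
      rw [← Real.exp_add, add_sub_cancel] at this
      linarith
    by_cases hx : x ∈ R
    · rw [ind_pos hx]
      nlinarith [mul_le_mul_of_nonneg_left h7 (dens_nonneg (cl k B) x)]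
    · rw [ind_neg hx]
      simpa using mul_nonneg (dens_nonneg _ _) (Real.exp_pos z).le
  have h8 := Real.log_le_log (by positivity) (h5.trans h1)
  rw [h2, Real.log_mul ha.ne' (Real.exp_pos _).ne', Real.log_exp, Real.log_exp] at h8
  have h9 : S / (2 * 4 ^ k) = 2 * (S / (4 * 4 ^ k)) := by field_simp; norm_num
  have h10 : S / (4 * 4 ^ k) ≤ -Real.log (ms B R) := by linarith
  rw [div_le_iff₀ (by positivity)] at h10
  rw [hS, hb] at h10
  linarith

theorem pow_quad {K b : ℝ} (hK : 2 ≤ K) (h1 : -1 ≤ b) (h2 : b ≤ K - 1) (Q : ℕ) :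
    (Q + 1 : ℝ) ≤ K ^ Q ∧ (1 + b) ^ Q ≤ 1 + Q * b + (K ^ Q - Q - 1) * b ^ 2 := by
  induction Q with
  | zero => simp
  | succ Q ih =>
    have hQ : (0 : ℝ) ≤ Q := Nat.cast_nonneg Q
    push_cast
    refine ⟨by rw [pow_succ]; nlinarith [ih.1], ?_⟩
    have h3 := mul_le_mul_of_nonneg_right ih.2 (by linarith : 0 ≤ 1 + b)
    have h4 : (K ^ Q - Q - 1) * b ^ 2 * (1 + b) ≤ (K ^ Q - Q - 1) * b ^ 2 * K :=
      mul_le_mul_of_nonneg_left (by linarith) (mul_nonneg (by linarith [ih.1]) (sq_nonneg b))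
    have h5 : 0 ≤ (K - 2) * (Q + 1) * b ^ 2 := mul_nonneg (mul_nonneg (by linarith) (by linarith))
      (sq_nonneg b)
    rw [pow_succ (1 + b), pow_succ K]
    nlinarith

theorem ms_eq (B : Finset (Fin n)) (R : Finset (Row n k)) : ms B R = pr R * lam B R :=
  (pr_mul_lam B R).symm

theorem col_step (hk : 1 ≤ k) {V B : Finset (Fin n)} (hB : B ⊆ V) {R : Finset (Row n k)}
    (hμ : 0 < pr R) {D : ℝ} (hD0 : 0 ≤ D) (hD : ∀ x ∈ R, ∑ j ∈ V, yv j x ≤ D) {Q : ℕ}
    (hQ : 1 ≤ Q) :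
    ∑ j ∈ V \ B, lam (insert j B) R ^ Q ≤ lam B R ^ Q *
      (#(V \ B) + Q * D + 4 * 4 ^ k * (2 ^ k) ^ Q * -Real.log (pr R)) +
        4 * 4 ^ k * (2 ^ k) ^ Q := by
  have hL : 0 ≤ -Real.log (pr R) := neg_nonneg.2 (Real.log_nonpos hμ.le (pr_le_one R))
  have hl := lam_nonneg B R
  have hlam : ∀ B', lam B' R = ms B' R / pr R := fun B' => by rw [ms_eq]; field_simp
  rcases (ms_nonneg B R).eq_or_lt with ha | ha
  · have h1 : ∀ j ∈ V \ B, lam (insert j B) R ^ Q = 0 := fun j hj => by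
      have h2 := mn_le (B := B) (R := R) (f := yv j) fun x _ _ => yv_le j x
      have h3 := ms_nonneg (insert j B) R
      have h4 := ms_insert (mem_sdiff.1 hj).2 R
      rw [← ha, zero_mul] at h2
      rw [hlam, show ms (insert j B) R = 0 by linarith, zero_div, zero_pow (by omega)]
    rw [sum_eq_zero h1]
    positivity
  have hl' : 0 < lam B R := by rw [hlam]; positivity
  have hK : (2 : ℝ) ≤ 2 ^ k := by simpa using pow_le_pow_right₀ (one_le_two (α := ℝ)) hk
  have h1 : ∀ j ∈ V \ B, lam (insert j B) R ^ Q ≤ lam B R ^ Q * (1 + Q * (mn B R (yv j) / ms B R) +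
      (2 ^ k) ^ Q * (mn B R (yv j) / ms B R) ^ 2) := fun j hj => by
    have h2 : lam (insert j B) R = lam B R * (1 + mn B R (yv j) / ms B R) := by
      rw [hlam, hlam, ms_insert (mem_sdiff.1 hj).2]; field_simp
    have h3 := (pow_quad hK (bias_mem ha j).1 (bias_mem ha j).2 Q).2
    rw [h2, mul_pow]
    refine mul_le_mul_of_nonneg_left ?_ (by positivity)
    nlinarith [sq_nonneg (mn B R (yv j) / ms B R), (Nat.cast_nonneg Q : (0 : ℝ) ≤ Q)]
  have h2 : ∑ j ∈ V \ B, mn B R (yv j) / ms B R ≤ D := by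
    have h3 := mn_sum B (V \ B) R fun _ => 1
    simp only [one_mul] at h3
    rw [← sum_div, ← h3, div_le_iff₀ ha, mul_comm]
    refine mn_le fun x hx hBx => ?_
    have h4 : 0 ≤ ∑ j ∈ B, yv j x := sum_nonneg fun j hj => by
      have h5 : cl k {j} ⊆ x := (product_subset_product_right (singleton_subset_iff.2 hj)).trans hBx
      rw [yv, MC.dens, ind_pos h5, mul_one]
      linarith [one_le_pow₀ (one_le_two (α := ℝ)) (n := #(cl k {j}))]
    linarith [sum_sdiff (f := fun j => yv j x) hB, hD x hx]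
  have h3 := level_one ha (V \ B) sdiff_disjoint
  rw [ms_eq B R, Real.log_mul hμ.ne' hl'.ne', ← ms_eq] at h3
  have h4 : lam B R ^ Q * -Real.log (lam B R) ≤ 1 := by
    rcases le_total 1 (lam B R) with h | h
    · nlinarith [Real.log_nonneg h, pow_pos hl' Q]
    · have h5 := Real.one_sub_inv_le_log_of_pos hl'
      have h6 : lam B R ^ Q ≤ lam B R := by
        simpa using pow_le_pow_of_le_one hl h hQ
      have h7 : lam B R * -Real.log (lam B R) ≤ 1 := by
        have := mul_le_mul_of_nonneg_left h5 hl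
        rw [mul_sub, mul_inv_cancel₀ hl'.ne'] at this
        linarith
      exact (mul_le_mul_of_nonneg_right h6 (neg_nonneg.2 (Real.log_nonpos hl h))).trans h7
  refine (sum_le_sum h1).trans ?_
  rw [← mul_sum, sum_add_distrib, sum_add_distrib, ← mul_sum, ← mul_sum, sum_const, nsmul_one]
  have h5 := mul_le_mul_of_nonneg_left h2 (Nat.cast_nonneg Q : (0 : ℝ) ≤ Q)
  have h6 := mul_le_mul_of_nonneg_left h3 (by positivity : (0 : ℝ) ≤ (2 ^ k) ^ Q)
  have h7 := mul_le_mul_of_nonneg_left h4 (by positivity : (0 : ℝ) ≤ 4 * 4 ^ k * (2 ^ k) ^ Q)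
  have h8 := mul_le_mul_of_nonneg_left (add_le_add h5 h6) (pow_pos hl' Q).le
  nlinarith

theorem expect_succ {α : Type} [DecidableEq α] (V : Finset α) {i : ℕ} (hi : i < #V)
    (f : Finset α → ℝ) : 𝔼 B ∈ powersetCard (i + 1) V, f B =
      𝔼 B ∈ powersetCard i V, (∑ j ∈ V \ B, f (insert j B)) / (#V - i) := by
  have h1 : ∑ B ∈ powersetCard i V, ∑ j ∈ V \ B, f (insert j B) =
      ∑ B ∈ powersetCard (i + 1) V, ∑ _j ∈ B, f B := by
    rw [sum_sigma', sum_sigma']
    refine sum_bij' (fun p _ => ⟨insert p.2 p.1, p.2⟩) (fun p _ => ⟨p.1.erase p.2, p.2⟩)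
      ?_ ?_ ?_ ?_ fun _ _ => rfl
    · rintro ⟨B, j⟩ h
      simp only [mem_sigma, mem_powersetCard, mem_sdiff] at h ⊢
      exact ⟨⟨insert_subset h.2.1 h.1.1, by rw [card_insert_of_notMem h.2.2, h.1.2]⟩,
        mem_insert_self _ _⟩
    · rintro ⟨B, j⟩ h
      simp only [mem_sigma, mem_powersetCard, mem_sdiff] at h ⊢
      exact ⟨⟨(erase_subset _ _).trans h.1.1, by rw [card_erase_of_mem h.2, h.1.2]; rfl⟩,
        h.1.1 h.2, notMem_erase _ _⟩
    · rintro ⟨B, j⟩ h
      simp only [mem_sigma, mem_sdiff] at h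
      simp [erase_insert h.2.2]
    · rintro ⟨B, j⟩ h
      simp only [mem_sigma] at h
      simp [insert_erase h.2]
  have h2 : ∑ B ∈ powersetCard (i + 1) V, ∑ _j ∈ B, f B =
      (i + 1) * ∑ B ∈ powersetCard (i + 1) V, f B := by
    rw [mul_sum]
    exact sum_congr rfl fun B hB => by
      rw [sum_const, (mem_powersetCard.1 hB).2, nsmul_eq_mul]; push_cast; rfl
  have h3 : (((#V).choose (i + 1) : ℕ) : ℝ) * (i + 1) = (#V).choose i * (#V - i) := by
    have := Nat.choose_succ_right_eq (#V) i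
    rw [← Nat.cast_sub hi.le]
    exact_mod_cast this
  have h4 : (0 : ℝ) < (#V).choose (i + 1) := by exact_mod_cast Nat.choose_pos hi
  have h5 : (0 : ℝ) < (#V).choose i := by exact_mod_cast Nat.choose_pos hi.le
  have h6 : (0 : ℝ) < #V - i := sub_pos.2 (by exact_mod_cast hi)
  rw [expect_eq_sum_div_card, expect_eq_sum_div_card, ← sum_div, h1, h2, card_powersetCard,
    card_powersetCard]
  field_simp
  linear_combination (-∑ B ∈ powersetCard (i + 1) V, f B) * h3

theorem chain (hk : 1 ≤ k) (V : Finset (Fin n)) {R : Finset (Row n k)}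
    (hμ : 0 < pr R) {D : ℝ} (hD0 : 0 ≤ D) (hD : ∀ x ∈ R, ∑ j ∈ V, yv j x ≤ D) {Q : ℕ}
    (hQ : 1 ≤ Q) (m : ℕ) (hm : 2 * m ≤ #V) :
    𝔼 B ∈ powersetCard m V, lam B R ^ Q ≤ Real.exp (m * (2 * (Q * D +
      4 * 4 ^ k * (2 ^ k) ^ Q * (-Real.log (pr R) + 1)) / #V)) := by
  have hL : 0 ≤ -Real.log (pr R) := neg_nonneg.2 (Real.log_nonpos hμ.le (pr_le_one R))
  obtain ⟨κ, hκ⟩ : ∃ κ : ℝ, κ = 4 * 4 ^ k * (2 ^ k) ^ Q := ⟨_, rfl⟩
  have hκ0 : 0 ≤ κ := by rw [hκ]; positivity
  obtain ⟨L, hL'⟩ : ∃ L, L = -Real.log (pr R) := ⟨_, rfl⟩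
  rw [← hL'] at hL
  rw [← hκ, ← hL']
  induction m with
  | zero =>
    have : lam ∅ R = 1 := by
      have h := ms_eq ∅ R
      have h' : ms ∅ R = pr R := expect_congr rfl fun x _ => by simp [cl, MC.dens, ind]
      rw [h'] at h
      exact (mul_right_eq_self₀.1 h.symm).resolve_right hμ.ne'
    simp [this]
  | succ m ih =>
    have h1 := ih (by omega)
    have hv : (0 : ℝ) < #V := by exact_mod_cast (by omega : 0 < #V)
    have hm' : (2 * (m + 1) : ℝ) ≤ #V := by exact_mod_cast hm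
    have hw : (0 : ℝ) < #V - m := by linarith [(Nat.cast_nonneg m : (0 : ℝ) ≤ m)]
    obtain ⟨γ, hγ⟩ : ∃ γ : ℝ, γ = 2 * (Q * D + κ * (L + 1)) / #V := ⟨_, rfl⟩
    have hγ0 : 0 ≤ γ := by rw [hγ]; positivity
    rw [← hγ] at h1 ⊢
    have hi : 1 / (#V - m : ℝ) ≤ 2 / #V := by
      rw [div_le_div_iff₀ hw hv]; linarith
    have h2 : ∀ B ∈ powersetCard m V, (∑ j ∈ V \ B, lam (insert j B) R ^ Q) / (#V - m) ≤
        lam B R ^ Q * (1 + (Q * D + κ * L) * (2 / #V)) + κ * (2 / #V) := fun B hB => by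
      obtain ⟨hBV, hBm⟩ := mem_powersetCard.1 hB
      have h3 := col_step hk hBV hμ hD0 hD hQ
      rw [← hκ, ← hL', card_sdiff_of_subset hBV, hBm, Nat.cast_sub (by omega)] at h3
      have h4 : 0 ≤ lam B R ^ Q := pow_nonneg (lam_nonneg _ _) _
      refine (div_le_div_of_nonneg_right h3 hw.le).trans ?_
      have h5 : (lam B R ^ Q * (#V - m + Q * D + κ * L) + κ) / (#V - m) =
          lam B R ^ Q * (1 + (Q * D + κ * L) * (1 / (#V - m))) + κ * (1 / (#V - m)) := by
        field_simp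
        ring
      rw [h5]
      gcongr
    have hne : (powersetCard m V).Nonempty := powersetCard_nonempty.2 (by omega)
    rw [expect_succ V (by omega)]
    refine (expect_le_expect h2).trans ?_
    rw [expect_add_distrib, ← expect_mul, expect_const hne]
    have h6 : 1 ≤ Real.exp (m * γ) := Real.one_le_exp (by positivity)
    have h7 : γ = (Q * D + κ * L) * (2 / #V) + κ * (2 / #V) := by rw [hγ]; ring
    have h8 := mul_le_mul_of_nonneg_right h1
      (by positivity : (0 : ℝ) ≤ 1 + (Q * D + κ * L) * (2 / #V))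
    have h9 := mul_le_mul_of_nonneg_right h6 (by positivity : (0 : ℝ) ≤ κ * (2 / #V))
    have h10 := mul_le_mul_of_nonneg_left (Real.add_one_le_exp γ) (Real.exp_pos (m * γ)).le
    push_cast
    rw [add_one_mul (m : ℝ) γ, Real.exp_add]
    have h11 : Real.exp (m * γ) * (γ + 1) = Real.exp (m * γ) * (1 + (Q * D + κ * L) * (2 / #V)) +
        Real.exp (m * γ) * (κ * (2 / #V)) := by rw [h7]; ring
    linarith

/-- The weight that pays for rows with many full columns. -/
noncomputable def Zw (V : Finset (Fin n)) (m Q : ℕ) (x : Row n k) : ℝ :=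
  Real.exp (4 * Q * m / #V * max (∑ j ∈ V, yv j x) 0)

theorem Zw_pos (V : Finset (Fin n)) (m Q : ℕ) (x : Row n k) : 0 < Zw V m Q x := Real.exp_pos _

theorem avg_Zw (V : Finset (Fin n)) {m Q : ℕ} (h : 16 * 4 ^ k * Q ^ 2 * m ^ 2 ≤ #V) :
    𝔼 x : Row n k, Zw V m Q x ≤ 4 := by
  obtain ⟨t, ht⟩ : ∃ t : ℝ, t = 4 * Q * m / #V := ⟨_, rfl⟩
  have ht0 : 0 ≤ t := by rw [ht]; positivity
  have h4 : (4 : ℝ) ^ k = (2 ^ k) ^ 2 := by rw [← pow_mul, mul_comm, pow_mul]; norm_num
  have h1 : (4 : ℝ) ^ k * (#V * t ^ 2) ≤ 1 := by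
    rcases Nat.eq_zero_or_pos #V with h0 | h0
    · simp [h0]
    · have hv : (0 : ℝ) < #V := by exact_mod_cast h0
      have : (4 : ℝ) ^ k * (#V * t ^ 2) = 16 * 4 ^ k * Q ^ 2 * m ^ 2 / #V := by
        rw [ht]; field_simp; ring
      rw [this, div_le_one hv]
      exact_mod_cast h
  have h2 := mgf (k := k) ∅ V (disjoint_empty_right V) (fun _ => t) fun j hj => by
    have hv : (1 : ℝ) ≤ #V := by exact_mod_cast card_pos.2 ⟨j, hj⟩
    rw [abs_of_nonneg ht0]
    refine (sq_le_one_iff₀ (by positivity)).1 ?_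
    rw [mul_pow, ← h4]
    nlinarith [mul_nonneg (sq_nonneg t) (pow_pos (four_pos (α := ℝ)) k).le]
  rw [sum_const, nsmul_eq_mul] at h2
  have h3 : ∀ x : Row n k, Zw V m Q x ≤
      1 + dens (cl k ∅) x * Real.exp (∑ j ∈ V, t * yv j x) := fun x => by
    have h5 : dens (cl k ∅) x = 1 := by simp [cl, MC.dens, ind]
    rw [h5, one_mul, Zw, ← ht, ← mul_sum]
    rcases le_total (∑ j ∈ V, yv j x) 0 with h6 | h6
    · rw [max_eq_right h6, mul_zero, Real.exp_zero]; linarith [Real.exp_pos (t * ∑ j ∈ V, yv j x)]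
    · rw [max_eq_left h6]; linarith
  refine (expect_le_expect fun x _ => h3 x).trans ?_
  rw [expect_add_distrib, Fintype.expect_const]
  linarith [Real.exp_le_exp.2 h1, Real.exp_one_lt_three]

theorem split_exp {μ α η H : ℝ} (hμ : 0 < μ) (hα : 0 ≤ α) (hη0 : 0 ≤ η) (hH : 2 ≤ H)
    (hη : η * (2 * H) ≤ 1) :
    μ * Real.exp (α + η * (-Real.log μ + 1)) ≤ 4 * (μ * Real.exp (2 * α)) + 2 * Real.exp (-H) := by
  have h4 : η ≤ 1 / 4 := by nlinarith
  have e1 := Real.exp_one_lt_d9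
  have e4 : Real.exp (1 / 4) ≤ 4 / 3 := by
    have := Real.exp_bound_div_one_sub_of_interval (x := 1 / 4) (by norm_num) (by norm_num)
    linarith
  have hp := Real.exp_pos (-H)
  have hq := mul_pos hμ (Real.exp_pos (2 * α))
  rcases le_total (η * -Real.log μ) (α + 1) with h | h
  · have h1 : Real.exp (α + η * (-Real.log μ + 1)) ≤
        Real.exp (2 * α) * (Real.exp 1 * Real.exp (1 / 4)) := by
      rw [← Real.exp_add, ← Real.exp_add]
      exact Real.exp_le_exp.2 (by linarith)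
    have h2 : Real.exp 1 * Real.exp (1 / 4) ≤ 4 := by
      nlinarith [Real.exp_pos 1, Real.exp_pos (1 / 4)]
    have h3 := mul_le_mul_of_nonneg_left h1 hμ.le
    nlinarith
  · have hL : 0 < -Real.log μ := by
      by_contra hc
      nlinarith [mul_nonneg hη0 (neg_nonneg.2 (not_lt.1 hc))]
    have h1 : 2 * H ≤ -Real.log μ := by nlinarith
    have h2 : μ * Real.exp (α + η * (-Real.log μ + 1)) ≤ Real.exp (-H) := by
      rw [← Real.exp_log hμ, ← Real.exp_add, Real.log_exp]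
      exact Real.exp_le_exp.2 (by nlinarith)
    linarith

theorem prior_level (hk : 1 ≤ k) (V : Finset (Fin n)) {m Q : ℕ} (hQ : 1 ≤ Q) (hm : 2 * m ≤ #V)
    {H : ℝ} (hH : 2 ≤ H) (hη : 16 * 4 ^ k * (2 ^ k) ^ Q * m * H ≤ #V) (R : Finset (Row n k))
    {D : ℝ} (hD : ∀ x ∈ R, ∑ j ∈ V, yv j x = D) :
    pr R * 𝔼 B ∈ powersetCard m V, lam B R ^ Q ≤
      4 * (𝔼 x, ind (x ∈ R) * Zw V m Q x) + 2 * Real.exp (-H) := by
  have hZ : 𝔼 x, ind (x ∈ R) * Zw V m Q x = pr R * Real.exp (2 * (2 * Q * m / #V * max D 0)) := by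
    rw [pr, expect_mul]
    refine expect_congr rfl fun x _ => ?_
    by_cases hx : x ∈ R
    · rw [Zw, hD x hx]; congr 2; ring
    · simp [ind_neg hx]
  rw [hZ]
  rcases (pr_nonneg R).eq_or_lt with h0 | hμ
  · rw [← h0, zero_mul, zero_mul, mul_zero, zero_add]; positivity
  have h1 := chain hk V hμ (le_max_right D 0) (fun x hx => (hD x hx).le.trans (le_max_left D 0))
    hQ m hm
  refine (mul_le_mul_of_nonneg_left h1 hμ.le).trans (le_trans (le_of_eq ?_)
    (split_exp (η := 8 * 4 ^ k * (2 ^ k) ^ Q * m / #V) hμ (by positivity) (by positivity) hH ?_))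
  · congr 2; ring
  · rw [div_mul_eq_mul_div]
    exact div_le_one_of_le₀ (by linarith) (by positivity)

theorem prior_set (hk : 1 ≤ k) (V : Finset (Fin n)) {m Q : ℕ} (hQ : 1 ≤ Q) (hm : 2 * m ≤ #V)
    {H : ℝ} (hH : 2 ≤ H) (hη : 16 * 4 ^ k * (2 ^ k) ^ Q * m * H ≤ #V) (R : Finset (Row n k)) :
    pr R * 𝔼 B ∈ powersetCard m V, lam B R ^ Q ≤
      4 * (𝔼 x, ind (x ∈ R) * Zw V m Q x) + 2 * (#V + 1) * Real.exp (-H) := by
  let c : Row n k → ℕ := fun x => #(V.filter fun j => cl k {j} ⊆ x)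
  let P : ℕ → Finset (Row n k) := fun d => R.filter fun x => c x = d
  have hi : ∀ x, ind (x ∈ R) = ∑ d ∈ range (#V + 1), ind (x ∈ P d) := fun x => by
    rw [sum_eq_single_of_mem (c x) (mem_range.2 (Nat.lt_succ_of_le (card_filter_le _ _)))
      fun d _ hd => ind_neg fun h => hd (mem_filter.1 h).2.symm]
    exact ind_congr (by simp [P])
  have hD : ∀ d, ∀ x ∈ P d, ∑ j ∈ V, yv j x = 2 ^ k * d - #V := fun d x hx => by
    rw [← (mem_filter.1 hx).2]
    simp only [yv, MC.dens, card_cl, card_singleton, mul_one, sum_sub_distrib, ← mul_sum, c,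
      card_filter, sum_const, nsmul_one]
    push_cast
    congr 2
    exact sum_congr rfl fun j _ => by by_cases h : cl k {j} ⊆ x <;> simp [ind, h]
  have hp : pr R = ∑ d ∈ range (#V + 1), pr (P d) := by
    simp only [pr, hi, expect_sum_comm]
  have hms : ∀ B, pr R * lam B R = ∑ d ∈ range (#V + 1), pr (P d) * lam B (P d) := fun B => by
    simp only [pr_mul_lam, hi, mul_sum, expect_sum_comm]
  have hJ : ∀ B, pr R * lam B R ^ Q ≤ ∑ d ∈ range (#V + 1), pr (P d) * lam B (P d) ^ Q :=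
    fun B => by
    rcases (pr_nonneg R).eq_or_lt with h0 | hμ
    · rw [← h0, zero_mul]
      exact sum_nonneg fun d _ => mul_nonneg (pr_nonneg _) (pow_nonneg (lam_nonneg _ _) _)
    have h1 := Real.pow_arith_mean_le_arith_mean_pow (range (#V + 1)) (fun d => pr (P d) / pr R)
      (fun d => lam B (P d)) (fun d _ => div_nonneg (pr_nonneg _) hμ.le)
      (by rw [← sum_div, ← hp, div_self hμ.ne']) (fun d _ => lam_nonneg _ _) Q
    simp only [div_mul_eq_mul_div, ← sum_div, ← hms] at h1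
    rwa [mul_div_cancel_left₀ _ hμ.ne', le_div_iff₀' hμ] at h1
  rw [mul_expect]
  refine (expect_le_expect fun B _ => hJ B).trans ?_
  rw [expect_sum_comm]
  simp only [← mul_expect]
  refine (sum_le_sum fun d _ => prior_level hk V hQ hm hH hη (P d) (hD d)).trans (le_of_eq ?_)
  rw [sum_add_distrib, ← mul_sum, ← expect_sum_comm, sum_const, card_range, nsmul_eq_mul]
  simp only [hi, sum_mul]
  push_cast
  ring

end Pool.Agent.Lib.MP_21ae8a_lc.BC
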