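import Pool.Agent.Lib.MP_21ae8a_lc.BC.Core
import Pool.Agent.Lib.MP_21ae8a_lc.BC.Prior

/-! The core bound when the planted rows and the planted columns are independent. -/

namespace Pool.Agent.Lib.MP_21ae8a_lc.BC

open Finset Function MC
open scoped BigOperators

variable {n k : ℕ} {U : Type} [Fintype U]

/-- Planting ones in the rows `A` and the columns `B`. -/
def plant2 (A B : Finset (Fin n)) (x : Fin n → Row n k) : Fin n → Row n k :=
  fun i => if i ∈ A then x i ∪ cl k B else x i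

noncomputable def wt2 (M : ℝ) (I A B : Finset (Fin n)) (R : Rect n k) : ℝ :=
  ∏ j, if j ∈ A \ I then lt M B (R j) else 1

noncomputable def lost2 (M : ℝ) (A B : Finset (Fin n)) (i : Fin n) (R : Rect n k) : ℝ :=
  PR R * (wt2 M {i} A B R * (lam B (R i) - lt M B (R i)))

theorem wt2_nonneg (M : ℝ) (I A B : Finset (Fin n)) (R : Rect n k) : 0 ≤ wt2 M I A B R :=
  prod_nonneg fun _ _ => by
    split_ifs
    · exact lt_nonneg _ _ _
    · exact zero_le_one

theorem replica2 (R : U → Rect n k) {c M : ℝ} (hM : 1 ≤ M)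
    (hc : ∀ x : Fin n → Row n k, ∑ u, ind (∀ j, x j ∈ R u j) ≤ c) (I B : Finset (Fin n)) {ρ : ℕ}
    (S : Fin ρ → Finset (Fin n)) :
    ∑ u, PR (R u) * ∏ a, wt2 M I (S a) B (R u) ≤ c * ∏ j, g M (mult S j) := by
  have key : ∀ j, ∃ d : Row n k → ℝ, (∀ x, 0 ≤ d x) ∧ 𝔼 x, d x = 1 ∧ ∀ A : Finset (Row n k),
      pr A * ∏ a, (if j ∈ S a \ I then lt M B A else 1) ≤
        g M (mult S j) * 𝔼 x, d x * ind (x ∈ A) := fun j => by
    by_cases h : ∃ a, j ∈ S a \ I
    · obtain ⟨a, ha⟩ := h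
      refine ⟨dens (cl k B), dens_nonneg _, avg_dens _, fun A => ?_⟩
      rw [← pr_mul_lam, ← mul_prod_erase univ _ (mem_univ a), if_pos ha, ← mul_assoc, mul_comm]
      refine mul_le_mul ?_ (mul_le_mul_of_nonneg_left (lt_le_lam _ _ _) (pr_nonneg _))
        (mul_nonneg (pr_nonneg _) (lt_nonneg _ _ _)) (zero_le_one.trans (one_le_g hM _))
      have h1 : ∏ b ∈ univ.erase a, (if j ∈ S b \ I then lt M B A else 1) ≤
          ∏ b ∈ univ.erase a, if j ∈ S b then M else 1 := by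
        refine prod_le_prod (fun b _ => ?_) fun b _ => ?_
        · split_ifs
          · exact lt_nonneg _ _ _
          · exact zero_le_one
        · by_cases hb : j ∈ S b \ I
          · rw [if_pos hb, if_pos (mem_sdiff.1 hb).1]
            exact lt_le (zero_le_one.trans hM) _ _
          · rw [if_neg hb]
            split_ifs
            · exact hM
            · exact le_rfl
      refine h1.trans ?_
      rw [← prod_filter, prod_const]
      have h2 : #((univ.erase a).filter fun b => j ∈ S b) + 1 = mult S j := by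
        rw [filter_erase, card_erase_add_one (by simpa using (mem_sdiff.1 ha).1), mult]
      rw [← h2, g]
      split_ifs with h3
      · exact pow_le_pow_right₀ hM (Nat.le_succ _)
      · rw [show #((univ.erase a).filter fun b => j ∈ S b) = 0 by omega, pow_zero]
    · refine ⟨fun _ => 1, fun _ => zero_le_one, by simp, fun A => ?_⟩
      rw [prod_eq_one fun a _ => if_neg fun ha => h ⟨a, ha⟩, mul_one]
      simp only [one_mul]
      exact le_mul_of_one_le_left (pr_nonneg A) (one_le_g hM _)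
  choose d hd0 hd1 hd using key
  calc _ ≤ ∑ u, (∏ j, g M (mult S j)) * ∏ j, 𝔼 x, d j x * ind (x ∈ R u j) :=
        sum_le_sum fun u _ => by
          simp only [PR, wt2]
          rw [prod_comm, ← prod_mul_distrib, ← prod_mul_distrib]
          refine prod_le_prod (fun j _ => mul_nonneg (pr_nonneg _) (prod_nonneg fun a _ => ?_))
            fun j _ => hd j _
          split_ifs
          · exact lt_nonneg _ _ _
          · exact zero_le_one
    _ ≤ _ := by
        rw [← mul_sum, mul_comm]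
        exact mul_le_mul_of_nonneg_right (cover R hc d hd0 hd1)
          (prod_nonneg fun j _ => zero_le_one.trans (one_le_g hM _))

theorem second2 {Ω : Type} [Fintype Ω] [Nonempty Ω] (s : Ω → Finset (Fin n)) (R : U → Rect n k)
    {c M G : ℝ} (hM : 1 ≤ M) (hc0 : 0 ≤ c)
    (hc : ∀ x : Fin n → Row n k, ∑ u, ind (∀ j, x j ∈ R u j) ≤ c) (I B : Finset (Fin n))
    (h2 : 𝔼 σ : Fin 2 → Ω, ∏ j, g M (mult (fun a => s (σ a)) j) ≤ G) :
    ∑ u, PR (R u) * (𝔼 ω, wt2 M I (s ω) B (R u)) ^ 2 ≤ c * G := by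
  refine le_trans ?_ (mul_le_mul_of_nonneg_left h2 hc0)
  simp only [← avg_pow, mul_expect]
  rw [← expect_sum_comm]
  exact expect_le_expect fun σ _ => replica2 _ hM hc I B _

theorem wt2_update (M : ℝ) (A B : Finset (Fin n)) (R : Rect n k) (i : Fin n)
    (X : Finset (Row n k)) : wt2 M {i} A B (update R i X) = wt2 M {i} A B R :=
  prod_congr rfl fun j _ => by
    by_cases h : j = i
    · simp [h]
    · rw [update_of_ne h]

theorem wt2_empty (M : ℝ) (A B : Finset (Fin n)) (R : Rect n k) (i : Fin n) :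
    wt2 M ∅ A B R = (if i ∈ A then lt M B (R i) else 1) * wt2 M {i} A B R := by
  rw [wt2, wt2, ← mul_prod_erase univ _ (mem_univ i), ← mul_prod_erase univ _ (mem_univ i),
    sdiff_empty, if_neg (show i ∉ A \ {i} by simp), one_mul]
  congr 1
  exact prod_congr rfl fun j hj => by simp [ne_of_mem_erase hj]

theorem lost2_nonneg (M : ℝ) (A B : Finset (Fin n)) (i : Fin n) (R : Rect n k) :
    0 ≤ lost2 M A B i R :=
  mul_nonneg (PR_nonneg _) (mul_nonneg (wt2_nonneg _ _ _ _ _) (sub_nonneg.2 (lt_le_lam _ _ _)))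

theorem step2 (M : ℝ) (A B : Finset (Fin n)) (R : Rect n k) (i : Fin n) (f : Row n k → Bool) :
    PR R * wt2 M ∅ A B R ≤ PR (half R i f false) * wt2 M ∅ A B (half R i f false) +
      PR (half R i f true) * wt2 M ∅ A B (half R i f true) +
      (lost2 M A B i (half R i f false) + lost2 M A B i (half R i f true)) := by
  have h6 : PR R = pr (R i) * ∏ j ∈ univ.erase i, pr (R j) := by
    rw [← PR_update, update_eq_self]
  have h0 : 0 ≤ (∏ j ∈ univ.erase i, pr (R j)) * wt2 M {i} A B R :=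
    mul_nonneg (prod_nonneg fun j _ => pr_nonneg _) (wt2_nonneg _ _ _ _ _)
  by_cases h : i ∈ A
  · simp only [wt2_empty M A B _ i, if_pos h, lost2, half, wt2_update, PR_update, update_self, h6]
    have h1 := split_avg (dens (cl k B)) (R i) f
    simp only [← pr_mul_lam] at h1
    have h2 := mul_le_mul_of_nonneg_left (lt_le_lam M B (R i)) (pr_nonneg (R i))
    rw [h1] at h2
    exact le_of_eq_of_le (by ring) ((mul_le_mul_of_nonneg_left h2 h0).trans_eq (by ring))
  · refine le_trans (le_of_eq ?_)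
      (le_add_of_nonneg_right (add_nonneg (lost2_nonneg _ _ _ _ _) (lost2_nonneg _ _ _ _ _)))
    simp only [wt2_empty M A B _ i, if_neg h, half, wt2_update, PR_update, h6]
    have h1 := split_avg (fun _ => 1) (R i) f
    simp only [one_mul] at h1
    rw [pr, h1, pr, pr]
    ring

theorem first_violation2 (M : ℝ) (A B : Finset (Fin n)) (P : Proto n (Row n k)) :
    ∀ R : Rect n k, PR R * wt2 M ∅ A B R ≤
      ((leaves P R).map fun l => PR l.1 * wt2 M ∅ A B l.1).sum +
        ∑ i, ((after i P R).map (lost2 M A B i)).sum := by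
  induction P with
  | leaf b => intro R; simp [leaves, after]
  | node j f t₀ t₁ h₀ h₁ =>
    intro R
    have a₀ := h₀ (half R j f false)
    have a₁ := h₁ (half R j f true)
    have b := step2 M A B R j f
    have c : ∑ i, ((if j = i then [half R j f false, half R j f true] else []).map
        (lost2 M A B i)).sum =
          lost2 M A B j (half R j f false) + lost2 M A B j (half R j f true) := by
      rw [sum_eq_single j (fun i _ hi => by simp [hi.symm]) (by simp)]
      simp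
    simp only [leaves, after, List.map_append, List.sum_append, sum_add_distrib, c]
    linarith

theorem avg_rect_plant2 (M : ℝ) (A B : Finset (Fin n)) (R : Rect n k) :
    PR R * wt2 M ∅ A B R ≤ 𝔼 x : Fin n → Row n k, ind (∀ j, plant2 A B x j ∈ R j) := by
  simp only [ind_forall, plant2]
  rw [avg_prod (fun j x => ind ((if j ∈ A then x ∪ cl k B else x) ∈ R j)) univ, PR, wt2,
    ← prod_mul_distrib, sdiff_empty]
  refine prod_le_prod (fun j _ => mul_nonneg (pr_nonneg _) ?_) fun j _ => ?_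
  · split_ifs
    · exact lt_nonneg _ _ _
    · exact zero_le_one
  · split_ifs
    · rw [avg_union _ fun x => ind (x ∈ R j), ← pr_mul_lam]
      exact mul_le_mul_of_nonneg_left (lt_le_lam _ _ _) (pr_nonneg _)
    · exact (mul_one _).le

theorem core_of2 {Ω : Type} [Fintype Ω] [Nonempty Ω] (s : Ω → Finset (Fin n)) {M δ : ℝ}
    (hM : 1 ≤ M) (hδ : 0 < δ) (P : Proto n (Row n k)) (B : Finset (Fin n))
    (h2 : 𝔼 σ : Fin 2 → Ω, ∏ j, g M (mult (fun a => s (σ a)) j) ≤ 1 + δ ^ 2) (b : Bool) :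
    4 * δ * 𝔼 x, ind (P.run x = b) ≤ 4 * δ * (𝔼 ω, 𝔼 x, ind (P.run (plant2 (s ω) B x) = b)) +
      (5 * δ ^ 2 + 2 * ∑ i, 𝔼 ω, ((after i P fun _ => univ).map (lost2 M (s ω) B i)).sum) := by
  obtain ⟨l, hl⟩ : ∃ l, l = leaves P fun _ => univ := ⟨_, rfl⟩
  have e0 : ∀ (x : Fin n → Row n k) (B : Bool → Prop), ind (B (P.run x)) =
      ∑ u : Fin l.length, ind (B l[u.1].2) * ind (∀ j, x j ∈ l[u.1].1 j) := fun x B => by
    rw [Fin.sum_univ_fun_getElem _ fun l : Rect n k × Bool => ind (B l.2) * ind (∀ j, x j ∈ l.1 j),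
      hl, leaves_run, ind_pos fun _ => mem_univ _, mul_one]
  have hc : ∀ x : Fin n → Row n k, ∑ u : Fin l.length, ind (∀ j, x j ∈ l[u.1].1 j) ≤ 1 :=
    fun x => by simpa [ind_pos trivial] using (e0 x fun _ => True).ge
  obtain ⟨L, hL⟩ : ∃ L : Fin l.length → ℝ, ∀ u, L u = 𝔼 ω, wt2 M ∅ (s ω) B l[u.1].1 :=
    ⟨_, fun _ => rfl⟩
  have e1 : 𝔼 x, ind (P.run x = b) = ∑ u : Fin l.length, ind (l[u.1].2 = b) * PR l[u.1].1 := by
    simp only [e0 _ (· = b)]
    rw [expect_sum_comm]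
    exact sum_congr rfl fun u _ => by rw [← mul_expect, avg_rect]
  have e2 : ∑ u : Fin l.length, ind (l[u.1].2 = b) * (PR l[u.1].1 * L u) ≤
      𝔼 ω, 𝔼 x, ind (P.run (plant2 (s ω) B x) = b) := by
    simp only [e0 _ (· = b), expect_sum_comm, hL, mul_expect]
    refine sum_le_sum fun u _ => expect_le_expect fun ω _ => ?_
    rw [← mul_expect]
    exact mul_le_mul_of_nonneg_left (avg_rect_plant2 _ _ _ _) (ind_nonneg _)
  have e3 := cover_PR _ hc
  have e4 : 1 ≤ ∑ u : Fin l.length, PR l[u.1].1 * L u +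
      ∑ i, 𝔼 ω, ((after i P fun _ => univ).map (lost2 M (s ω) B i)).sum := by
    simp only [hL, mul_expect]
    rw [← expect_sum_comm, ← expect_sum_comm, ← expect_add_distrib]
    refine le_expect univ_nonempty fun ω _ => ?_
    rw [Fin.sum_univ_fun_getElem _ fun l : Rect n k × Bool => PR l.1 * wt2 M ∅ (s ω) B l.1, hl]
    refine le_of_eq_of_le ?_ (first_violation2 M (s ω) B P _)
    simp [PR, wt2, pr_univ, lt, lam_univ, hM]
  have e5 : ∑ u : Fin l.length, PR l[u.1].1 * L u ^ 2 ≤ 1 + δ ^ 2 := by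
    simp only [hL]
    exact (second2 s _ hM zero_le_one hc ∅ B h2).trans_eq (one_mul _)
  have e6 : ∀ u : Fin l.length, 4 * δ * (ind (l[u.1].2 = b) * PR l[u.1].1) ≤
      4 * δ * (ind (l[u.1].2 = b) * (PR l[u.1].1 * L u)) + ((4 * δ ^ 2 + 1) * PR l[u.1].1 -
        2 * (PR l[u.1].1 * L u) + PR l[u.1].1 * L u ^ 2) := fun u => by
    have := PR_nonneg l[u.1].1
    by_cases h : l[u.1].2 = b
    · rw [ind_pos h]
      nlinarith [mul_nonneg this (sq_nonneg (1 - L u - 2 * δ))]
    · rw [ind_neg h]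
      nlinarith [mul_nonneg this (sq_nonneg (1 - L u)), mul_nonneg this (sq_nonneg δ)]
  have e7 := sum_le_sum fun u (_ : u ∈ univ) => e6 u
  simp only [sum_add_distrib, sum_sub_distrib, ← mul_sum] at e7
  rw [e1]
  nlinarith [mul_le_mul_of_nonneg_left e2 hδ.le,
    mul_le_mul_of_nonneg_left e3 (show 0 ≤ 4 * δ ^ 2 + 1 by positivity)]

theorem viol2 {Ω : Type} [Fintype Ω] [Nonempty Ω] (s : Ω → Finset (Fin n)) (R : U → Rect n k)
    (i : Fin n) {r q m : ℕ} {M H : ℝ} (hM : 1 ≤ M) (hk : 1 ≤ k) (hq : 1 ≤ q)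
    (h1 : ∀ x : Fin n → Row n k, ∑ u, ind (∀ j, x j ∈ R u j) ≤ r)
    (h2 : ∀ x : Fin n → Row n k, ∑ u, ind (∀ j, x j ∈ update (R u) i univ j) ≤ 2 ^ (r + 1))
    (hB : 𝔼 σ : Fin 2 → Ω, ∏ j, g M (mult (fun a => s (σ a)) j) ≤ 2) (V : Finset (Fin n))
    (hm : 2 * m ≤ #V) (hH : 2 ≤ H) (hη : 16 * 4 ^ k * (2 ^ k) ^ (2 * q) * m * H ≤ #V)
    (hZ : 16 * 4 ^ k * (2 * q) ^ 2 * m ^ 2 ≤ #V)
    (hE : (#V + 1) * Real.exp (-H) * 2 ^ (r + 1) ≤ 1) :
    𝔼 B ∈ powersetCard m V, ∑ u, PR (R u) * 𝔼 ω, wt2 M {i} (s ω) B (R u) * lam B (R u i) ^ q ≤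
      9 * r + 1 := by
  have hne : (powersetCard m V).Nonempty := powersetCard_nonempty.2 (by omega)
  have a1 : ∀ B, ∑ u, PR (R u) * 𝔼 ω, wt2 M {i} (s ω) B (R u) * lam B (R u i) ^ q ≤
      r + (∑ u, PR (R u) * lam B (R u i) ^ (2 * q)) / 2 := fun B => by
    have h3 := second2 s R hM (Nat.cast_nonneg r) h1 {i} B hB
    have h4 : ∀ u, PR (R u) * 𝔼 ω, wt2 M {i} (s ω) B (R u) * lam B (R u i) ^ q ≤
        PR (R u) * (𝔼 ω, wt2 M {i} (s ω) B (R u)) ^ 2 / 2 +
          PR (R u) * lam B (R u i) ^ (2 * q) / 2 := fun u => by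
      rw [← expect_mul, mul_comm 2 q, pow_mul]
      nlinarith [mul_nonneg (PR_nonneg (R u))
        (sq_nonneg (𝔼 ω, wt2 M {i} (s ω) B (R u) - lam B (R u i) ^ q))]
    refine (sum_le_sum fun u _ => h4 u).trans ?_
    rw [sum_add_distrib, ← sum_div, ← sum_div]
    linarith
  have h6 : ∀ u, PR (R u) = pr (R u i) * ∏ j ∈ univ.erase i, pr (R u j) := fun u => by
    rw [← PR_update, update_eq_self]
  obtain ⟨z, hz⟩ : ∃ z, z = 𝔼 x : Row n k, Zw V m (2 * q) x := ⟨_, rfl⟩
  have hz0 : 0 < z := hz ▸ expect_pos (fun x _ => Zw_pos _ _ _ x) univ_nonempty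
  have hz4 : z ≤ 4 := hz ▸ avg_Zw V hZ
  have a2 : ∑ u, (∏ j ∈ univ.erase i, pr (R u j)) *
      𝔼 x, ind (x ∈ R u i) * Zw V m (2 * q) x ≤ r * z := by
    have h3 := cover R h1 (fun j x => if j = i then Zw V m (2 * q) x / z else 1)
      (fun j x => by split_ifs; exacts [div_nonneg (Zw_pos _ _ _ _).le hz0.le, zero_le_one])
      fun j => by
        split_ifs
        · rw [← expect_div, ← hz, div_self hz0.ne']
        · simp
    rw [← div_le_iff₀ hz0, sum_div]
    refine le_of_eq_of_le (sum_congr rfl fun u _ => ?_) h3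
    rw [← mul_prod_erase univ _ (mem_univ i), mul_comm, mul_div_right_comm, expect_div]
    congr 1
    · exact expect_congr rfl fun x _ => by rw [if_pos rfl]; ring
    · exact prod_congr rfl fun j hj => by simp [ne_of_mem_erase hj, pr]
  have a3 : ∑ u, ∏ j ∈ univ.erase i, pr (R u j) ≤ 2 ^ (r + 1) := by
    simpa only [PR_update, pr_univ, one_mul] using cover_PR (fun u => update (R u) i univ) h2
  have a4 : ∑ u, PR (R u) * 𝔼 B ∈ powersetCard m V, lam B (R u i) ^ (2 * q) ≤ 16 * r + 2 := by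
    have h3 : ∀ u, PR (R u) * 𝔼 B ∈ powersetCard m V, lam B (R u i) ^ (2 * q) ≤
        4 * ((∏ j ∈ univ.erase i, pr (R u j)) * 𝔼 x, ind (x ∈ R u i) * Zw V m (2 * q) x) +
          2 * (#V + 1) * Real.exp (-H) * ∏ j ∈ univ.erase i, pr (R u j) := fun u => by
      have h4 := mul_le_mul_of_nonneg_left (prior_set hk V (by omega) hm hH hη (R u i))
        (prod_nonneg fun j _ => pr_nonneg (R u j) : 0 ≤ ∏ j ∈ univ.erase i, pr (R u j))
      rw [h6]
      exact le_of_eq_of_le (by ring) (h4.trans_eq (by ring))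
    refine (sum_le_sum fun u _ => h3 u).trans ?_
    rw [sum_add_distrib, ← mul_sum, ← mul_sum]
    have h4 := mul_le_mul_of_nonneg_left a3
      (by positivity : (0 : ℝ) ≤ 2 * (#V + 1) * Real.exp (-H))
    nlinarith [mul_le_mul_of_nonneg_left hz4 (Nat.cast_nonneg r : (0 : ℝ) ≤ r)]
  refine (expect_le_expect fun B _ => a1 B).trans ?_
  rw [expect_add_distrib, expect_const hne, ← expect_div, expect_sum_comm]
  simp only [← mul_expect]
  linarith

theorem core2 {Ω : Type} [Fintype Ω] [Nonempty Ω] (s : Ω → Finset (Fin n)) {θ : ℝ}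
    (hθ : 0 ≤ θ) (hs : ∀ W : Finset (Fin n), 𝔼 ω, ind (W ⊆ s ω) ≤ θ ^ #W) {r t m : ℕ}
    (hk : 1 ≤ k) (h1 : 8 * 16 ^ t * (n * θ ^ 2) ≤ 1) (h1' : 2 * (2 ^ t * θ) ≤ 1)
    (V : Finset (Fin n)) (hm : 2 * m ≤ #V)
    (hη : 16 * 4 ^ k * (2 ^ k) ^ (2 * (t + 1)) * m * (r + t * t + 2) ≤ #V)
    (hZ : 16 * 4 ^ k * (2 * (t + 1)) ^ 2 * m ^ 2 ≤ #V)
    (h2 : (9 * r + 1) * n * 4 ^ t ≤ 2 ^ (t * t)) (P : Proto n (Row n k))
    (hP : ∀ i, P.cost i ≤ r) (b : Bool) :
    𝔼 x, ind (P.run x = b) ≤ 𝔼 B ∈ powersetCard m V, 𝔼 ω, 𝔼 x,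
      ind (P.run (plant2 (s ω) B x) = b) + 2 / 2 ^ t := by
  have hne : (powersetCard m V).Nonempty := powersetCard_nonempty.2 (by omega)
  have hM : (1 : ℝ) ≤ 2 ^ t := one_le_pow₀ one_le_two
  have hδ : (0 : ℝ) < 1 / 2 ^ t := by positivity
  have hδ1 : ((1 : ℝ) / 2 ^ t) ^ 2 ≤ 1 :=
    pow_le_one₀ hδ.le (div_le_one_of_le₀ hM (by positivity))
  have hB : 𝔼 σ : Fin 2 → Ω, ∏ j, g (2 ^ t) (mult (fun a => s (σ a)) j) ≤ 1 + (1 / 2 ^ t) ^ 2 := by
    refine (moment s hθ (by positivity) hs 2 (by exact_mod_cast h1')).trans ?_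
    have h16 : (16 : ℝ) ^ t = (2 ^ t) ^ 4 := by rw [← pow_mul, mul_comm, pow_mul]; norm_num
    rw [h16] at h1
    generalize (2 : ℝ) ^ t = M at *
    have h6 : n * ((2 : ℕ) * (M * θ)) ^ 2 * M ^ 2 ≤ 1 / 2 := by push_cast; linarith
    have h7 : 0 ≤ n * ((2 : ℕ) * (M * θ)) ^ 2 := by positivity
    generalize n * ((2 : ℕ) * (M * θ)) ^ 2 = y at *
    have h8 : 1 ≤ M ^ 2 := one_le_pow₀ hM
    have h9 := Real.abs_exp_sub_one_le (x := y) (by rw [abs_of_nonneg h7]; nlinarith)
    rw [abs_of_nonneg h7] at h9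
    have h10 : 2 * y ≤ (1 / M) ^ 2 := by
      rw [div_pow, one_pow, le_div_iff₀ (by positivity)]
      linarith
    linarith [le_abs_self (Real.exp y - 1)]
  have hE : ((#V : ℝ) + 1) * Real.exp (-(r + t * t + 2)) * 2 ^ (r + 1) ≤ 1 := by
    have h3 : #V ≤ 2 ^ (t * t) := by
      have h4 : #V ≤ n := by simpa using card_le_univ V
      refine h4.trans (le_trans ?_ h2)
      calc n = 1 * n * 1 := by ring
        _ ≤ _ := by gcongr; exacts [by omega, Nat.one_le_pow _ _ (by norm_num)]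
    have h4 : ((#V : ℝ) + 1) ≤ 2 * 2 ^ (t * t) := by
      have h5 : (#V : ℝ) ≤ 2 ^ (t * t) := by exact_mod_cast h3
      linarith [one_le_pow₀ (one_le_two (α := ℝ)) (n := t * t)]
    have h5 : (2 : ℝ) ^ (r + t * t + 2) ≤ Real.exp (r + t * t + 2) := by
      have h6 := pow_le_pow_left₀ zero_le_two Real.exp_one_gt_two.le (r + t * t + 2)
      rw [← Real.exp_nat_mul, mul_one] at h6
      exact_mod_cast h6
    rw [Real.exp_neg, mul_right_comm, ← div_eq_mul_inv, div_le_one (Real.exp_pos _)]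
    refine le_trans ?_ h5
    calc ((#V : ℝ) + 1) * 2 ^ (r + 1) ≤ 2 * 2 ^ (t * t) * 2 ^ (r + 1) := by gcongr
      _ = _ := by ring
  have hl : ∀ i, 𝔼 B ∈ powersetCard m V, 𝔼 ω,
      ((after i P fun _ => univ).map (lost2 (2 ^ t) (s ω) B i)).sum ≤
        (9 * r + 1) / (2 ^ t) ^ t := fun i => by
    have h := viol2 s
      (fun u : Fin (after i P fun _ => univ).length => (after i P fun _ => univ)[u.1])
      i (q := t + 1) (H := r + t * t + 2) hM hk (by omega) (fun x => by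
        rw [Fin.sum_univ_fun_getElem _ fun u : Rect n k => ind (∀ j, x j ∈ u j)]
        exact (after_cover x i P _).trans ((mul_le_of_le_one_right (Nat.cast_nonneg _)
          (ind_le_one _)).trans (Nat.cast_le.2 (hP i)))) (fun x => by
        rw [Fin.sum_univ_fun_getElem _ fun u : Rect n k => ind (∀ j, x j ∈ update u i univ j)]
        refine (after_cover' x i P _).trans ?_
        have h1 : (2 : ℝ) ^ (P.cost i + 1) ≤ 2 ^ (r + 1) :=
          pow_le_pow_right₀ one_le_two (by have := hP i; omega)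
        have h2 : (2 : ℝ) ≤ 2 ^ (P.cost i + 1) := le_self_pow₀ one_le_two (by omega)
        exact (mul_le_of_le_one_right (by linarith) (ind_le_one _)).trans (by linarith))
      (by linarith) V hm (le_add_of_nonneg_left (by positivity)) (by exact_mod_cast hη) hZ hE
    refine le_trans ?_ (div_le_div_of_nonneg_right h (by positivity))
    rw [expect_div]
    refine expect_le_expect fun B _ => ?_
    simp only [← Fin.sum_univ_fun_getElem]
    rw [expect_sum_comm, sum_div]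
    refine sum_le_sum fun u _ => ?_
    rw [mul_div_assoc, expect_div, mul_expect]
    refine expect_le_expect fun ω _ => mul_le_mul_of_nonneg_left ?_ (PR_nonneg _)
    rw [mul_div_assoc]
    exact mul_le_mul_of_nonneg_left (excess_le (by linarith) _ _ _) (wt2_nonneg _ _ _ _ _)
  have hβ : ∑ i, 𝔼 B ∈ powersetCard m V, 𝔼 ω,
      ((after i P fun _ => univ).map (lost2 (2 ^ t) (s ω) B i)).sum ≤ (1 / 2 ^ t) ^ 2 := by
    refine (sum_le_sum fun i _ => hl i).trans ?_
    rw [sum_const, card_univ, Fintype.card_fin, nsmul_eq_mul, ← pow_mul, div_pow, one_pow,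
      ← mul_div_assoc, div_le_div_iff₀ (by positivity) (by positivity), one_mul, ← pow_mul,
      mul_comm t 2, pow_mul, mul_comm (n : ℝ)]
    norm_num
    exact_mod_cast h2
  have h := expect_le_expect fun B (_ : B ∈ powersetCard m V) => core_of2 s hM hδ P B hB b
  rw [expect_const hne, expect_add_distrib, expect_add_distrib, expect_const hne, ← mul_expect,
    ← mul_expect, expect_sum_comm] at h
  rw [div_eq_mul_one_div]
  refine le_of_mul_le_mul_left ?_ (show (0 : ℝ) < 4 * (1 / 2 ^ t) by positivity)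
  nlinarith [sq_nonneg ((1 : ℝ) / 2 ^ t)]

end Pool.Agent.Lib.MP_21ae8a_lc.BC
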