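import Pool.Agent.Lib.MP_21ae8a_lc.BC.Defs

/-! Blackboard protocols whose players see the rows of one off-diagonal block. -/

namespace Pool.Agent.Lib.MP_21ae8a_lc.BC

/-- Row `i` of the block with rows in `L` and columns outside `L` (other entries are shown as
`0`). -/
def rowView {n k : ℕ} (L : Finset (Fin n)) (M : Mats n k) (i : Fin n) : Fin k → Fin n → ℝ :=
  fun a j => if i ∈ L ∧ j ∉ L then M a i j else 0

/-- The test is computed by a blackboard protocol in which player `i` sees row `i` of the block
with rows in `L` and columns outside `L` of all `2 k` matrices, and every player writes at most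
`r` bits. -/
def IsRowTest {n k : ℕ} (L : Finset (Fin n)) (r : ℕ) (τ : Mats n k → Mats n k → Bool) : Prop :=
  ∃ P : Proto n ((Fin k → Fin n → ℝ) × (Fin k → Fin n → ℝ)), (∀ i, P.cost i ≤ r) ∧
    ∀ M N, τ M N = P.run fun i => (rowView L M i, rowView L N i)

end Pool.Agent.Lib.MP_21ae8a_lc.BC
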