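import Pool.Agent.Lib.MP_21ae8a_lc.BC.Main
import Pool.Agent.Lib.MP_21ae8a_lc.BC.Bi
import Pool.Agent.Lib.MP_21ae8a_lc.BC.BiDefs

/-! From the core bound with independent rows and columns to the symmetric models. -/

namespace Pool.Agent.Lib.MP_21ae8a_lc.BC

open Finset Function MC
open scoped BigOperators

variable {n k : ℕ}

theorem le_expect_split (L : Finset (Fin n)) {m : ℕ} (hm : m ≤ n) (F : Finset (Fin n) →
    Finset (Fin n) → ℝ) {c : ℝ} (h : ∀ a ≤ m, (powersetCard a L).Nonempty →
      (powersetCard (m - a) Lᶜ).Nonempty →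
      c ≤ 𝔼 B ∈ powersetCard (m - a) Lᶜ, 𝔼 A ∈ powersetCard a L, F A B) :
    c ≤ 𝔼 S ∈ powersetCard m (univ : Finset (Fin n)), F (S ∩ L) (S \ L) := by
  have hne : (powersetCard m (univ : Finset (Fin n))).Nonempty :=
    powersetCard_nonempty.2 (by simpa using hm)
  rw [← sub_nonneg, ← expect_const hne c, ← expect_sub_distrib, expect_eq_sum_div_card]
  refine div_nonneg ?_ (Nat.cast_nonneg _)
  rw [← sum_fiberwise_of_maps_to (t := range (m + 1)) (g := fun S => #(S ∩ L)) fun S hS =>
    mem_range.2 (Nat.lt_succ_of_le ((card_le_card inter_subset_left).trans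
      (mem_powersetCard.1 hS).2.le))]
  refine sum_nonneg fun a ha => ?_
  have ha' : a ≤ m := Nat.le_of_lt_succ (mem_range.1 ha)
  have h1 : ∑ S ∈ (powersetCard m univ).filter fun S => #(S ∩ L) = a, (F (S ∩ L) (S \ L) - c) =
      ∑ p ∈ powersetCard (m - a) Lᶜ ×ˢ powersetCard a L, (F p.2 p.1 - c) := by
    refine sum_bij' (fun S _ => (S \ L, S ∩ L)) (fun p _ => p.1 ∪ p.2) ?_ ?_ ?_ ?_ fun _ _ => rfl
    · intro S hS
      simp only [mem_filter, mem_powersetCard, mem_product] at hS ⊢
      have := card_sdiff_add_card_inter S L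
      exact ⟨⟨fun j hj => mem_compl.2 (mem_sdiff.1 hj).2, by omega⟩, inter_subset_right, hS.2⟩
    · intro p hp
      simp only [mem_filter, mem_powersetCard, mem_product] at hp ⊢
      have hd : Disjoint p.1 L := disjoint_left.2 fun j hj => mem_compl.1 (hp.1.1 hj)
      refine ⟨⟨subset_univ _, ?_⟩, ?_⟩
      · rw [card_union_of_disjoint (hd.mono_right hp.2.1)]; omega
      · rw [union_inter_distrib_right, disjoint_iff_inter_eq_empty.1 hd, empty_union,
          inter_eq_left.2 hp.2.1, hp.2.2]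
    · intro S _
      exact sdiff_union_inter S L
    · intro p hp
      simp only [mem_powersetCard, mem_product] at hp
      have hd : Disjoint p.1 L := disjoint_left.2 fun j hj => mem_compl.1 (hp.1.1 hj)
      refine Prod.ext ?_ ?_
      · simp only [union_sdiff_distrib, sdiff_eq_self_of_disjoint hd,
          sdiff_eq_empty_iff_subset.2 hp.2.1, union_empty]
      · simp only [union_inter_distrib_right, disjoint_iff_inter_eq_empty.1 hd, empty_union,
          inter_eq_left.2 hp.2.1]
  rw [h1]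
  rcases (powersetCard (m - a) Lᶜ ×ˢ powersetCard a L).eq_empty_or_nonempty with h0 | h0
  · rw [h0, sum_empty]
  · have h2 := h a ha' (nonempty_product.1 h0).2 (nonempty_product.1 h0).1
    rw [← expect_product' _ _ fun B A => F A B, ← sub_nonneg, ← expect_const h0 c,
      ← expect_sub_distrib, expect_eq_sum_div_card] at h2
    exact (div_nonneg_iff.1 h2).elim And.left fun h3 =>
      absurd h3.2 (not_le.2 (by exact_mod_cast card_pos.2 h0))

theorem success_le {m r : ℕ} {δ : ℝ} (hne : (powersetCard m (univ : Finset (Fin n))).Nonempty)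
    {own : Fin k → Fin n → Fin n → Bool} (ho : ∀ a i j, ¬(own a i j = true ∧ own a j i = true))
    (hc : ∀ Q : Proto n (Fin k → Fin n → ℝ), (∀ i, Q.cost i ≤ r) → ∀ b : Bool,
      𝔼 x : Fin n → Row n k, ind (Q.run (fun i => phi own i (x i)) = b) ≤
        𝔼 S ∈ powersetCard m (univ : Finset (Fin n)), 𝔼 x : Fin n → Row n k,
          ind (Q.run (fun i => phi own i (plantD S x i)) = b) + δ)
    (τ : Mats n k → Mats n k → Bool)
    (P : Proto n ((Fin k → Fin n → ℝ) × (Fin k → Fin n → ℝ))) (hP : ∀ i, P.cost i ≤ r)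
    (hτ : ∀ M N, τ M N = P.run fun i => (view own M i, view own N i)) :
    successK m τ ≤ 1 / 2 + δ := by
  have key : ∀ (G : Mats n k → Bool) (Q : Proto n (Fin k → Fin n → ℝ)), (∀ i, Q.cost i ≤ r) →
      (∀ M, G M = Q.run (view own M)) → ∀ b : Bool,
      𝔼 S ∈ powersetCard m (univ : Finset (Fin n)), 𝔼 x : Fin k → Pos n → Bool,
        (if G (fun a => modelB S (x a)) = b then (1 : ℝ) else 0) ≤
      𝔼 x : Fin k → Pos n → Bool, (if G (fun a => modelA (x a)) = b then (1 : ℝ) else 0) +
        δ := fun G Q hQ hG b => by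
    have h := hc Q hQ (!b)
    have eA : 𝔼 x : Fin k → Pos n → Bool, ind (G (fun a => modelA (x a)) = !b) =
        𝔼 x : Fin n → Row n k, ind (Q.run (fun i => phi own i (x i)) = !b) := by
      rw [← expect_psi own]
      refine expect_congr rfl fun x _ => ?_
      rw [hG, funext (view_A ho x)]
    have eB : ∀ S, 𝔼 x : Fin k → Pos n → Bool, ind (G (fun a => modelB S (x a)) = !b) =
        𝔼 x : Fin n → Row n k, ind (Q.run (fun i => phi own i (plantD S x i)) = !b) :=
      fun S => by
      rw [← expect_psi own]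
      refine expect_congr rfl fun x _ => ?_
      rw [hG, funext (view_B ho S x)]
    simp only [ite_bool, expect_sub_distrib, Fintype.expect_const, expect_const hne, eA, eB]
    linarith
  have k1 := fun y : Fin k → Pos n → Bool => key (fun M => τ M fun a => modelA (y a))
    (P.comap fun i v => (v, view own (fun a => modelA (y a)) i))
    (fun i => by rw [Proto.cost_comap]; exact hP i) (fun M => by rw [hτ, Proto.run_comap]) true
  have k2 := fun y : Fin k → Pos n → Bool => key (fun M => τ (fun a => modelA (y a)) M)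
    (P.comap fun i v => (view own (fun a => modelA (y a)) i, v))
    (fun i => by rw [Proto.cost_comap]; exact hP i) (fun M => by rw [hτ, Proto.run_comap]) false
  have s1 := expect_le_expect fun y (_ : y ∈ univ) => k1 y
  have s2 := expect_le_expect fun y (_ : y ∈ univ) => k2 y
  rw [expect_add_distrib, Fintype.expect_const] at s1 s2
  have s3 : (𝔼 y : Fin k → Pos n → Bool, 𝔼 x : Fin k → Pos n → Bool,
        if τ (fun a => modelA (x a)) (fun a => modelA (y a)) = true then (1 : ℝ) else 0) +
      (𝔼 y : Fin k → Pos n → Bool, 𝔼 x : Fin k → Pos n → Bool,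
        if τ (fun a => modelA (y a)) (fun a => modelA (x a)) = false then (1 : ℝ) else 0) = 1 := by
    rw [expect_comm, ← expect_add_distrib]
    refine (expect_congr rfl fun y _ => ?_).trans (Fintype.expect_const 1)
    rw [← expect_add_distrib]
    refine (expect_congr rfl fun x _ => ?_).trans (Fintype.expect_const 1)
    cases τ (fun a => modelA (y a)) (fun a => modelA (x a)) <;> simp
  have s4 : successK m τ =
      ((𝔼 y : Fin k → Pos n → Bool, 𝔼 S ∈ powersetCard m (univ : Finset (Fin n)),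
        𝔼 x : Fin k → Pos n → Bool,
        if τ (fun a => modelB S (x a)) (fun a => modelA (y a)) = true then (1 : ℝ) else 0) +
      (𝔼 y : Fin k → Pos n → Bool, 𝔼 S ∈ powersetCard m (univ : Finset (Fin n)),
        𝔼 x : Fin k → Pos n → Bool,
        if τ (fun a => modelA (y a)) (fun a => modelB S (x a)) = false then (1 : ℝ) else 0)) / 2 := by
    rw [expect_comm univ, expect_comm univ (powersetCard m univ), ← expect_add_distrib, successK,
      expect_div]
    refine expect_congr rfl fun S _ => ?_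
    rw [expect_comm, ← expect_add_distrib, expect_div]
    refine expect_congr rfl fun y _ => ?_
    rw [← expect_add_distrib, expect_div]
  rw [s4]
  linarith

theorem main2 (n k m r t : ℕ) (hk : 1 ≤ k) (L : Finset (Fin n)) (hL : n ≤ 3 * #L)
    (hL' : n ≤ 3 * #Lᶜ) (h1 : 192 * (t + 1) ^ 2 * 4 ^ (k + 2 * t) * m ^ 2 ≤ n)
    (h1' : 48 * (r + t * t + 2) * 4 ^ (k * (t + 2)) * m ≤ n)
    (h2 : (9 * r + 1) * n * 4 ^ t ≤ 2 ^ (t * t)) (τ : Mats n k → Mats n k → Bool)
    (hτ : IsRowTest L r τ) : successK m τ ≤ 1 / 2 + 2 / 2 ^ t := by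
  obtain ⟨P, hP, hτ⟩ := hτ
  have hmm : m ≤ m ^ 2 := Nat.le_self_pow two_ne_zero m
  have h16 : 16 ^ t ≤ (t + 1) ^ 2 * 4 ^ (k + 2 * t) := by
    rw [pow_add, pow_mul, ← mul_assoc]
    exact Nat.le_mul_of_pos_left _ (by positivity)
  have h3 : 192 * (16 ^ t * m ^ 2) ≤ n := le_trans (by rw [mul_assoc 192, ← mul_assoc]; gcongr) h1
  have h4 : 2 ^ t * m ≤ 16 ^ t * m ^ 2 := by gcongr; norm_num
  have h5 : m ≤ 2 ^ t * m := Nat.le_mul_of_pos_left _ (by positivity)
  refine success_le (own := fun _ i j => decide (i ∈ L ∧ j ∉ L))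
    (powersetCard_nonempty.2 (by rw [card_univ, Fintype.card_fin]; omega))
    (fun a i j h => by simp only [decide_eq_true_eq] at h; exact h.1.2 h.2.1)
    (fun Q hQ b => ?_) τ P hP fun M N => ?_
  · have e : ∀ (S : Finset (Fin n)) (x : Fin n → Row n k) (i : Fin n),
        phi (fun _ i j => decide (i ∈ L ∧ j ∉ L)) i (plantD S x i) =
        phi (fun _ i j => decide (i ∈ L ∧ j ∉ L)) i (plant2 (S ∩ L) (S \ L) x i) :=
      fun S x i => by
      funext a j
      by_cases h : i ∈ L ∧ j ∉ L
      · have hij : j ≠ i := fun e => h.2 (e ▸ h.1)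
        by_cases hi : i ∈ S <;> simp [phi, plantD, plant2, cl, h, hi, hij]
      · simp [phi, h]
    simp only [e, ← Proto.run_comap]
    rw [← sub_le_iff_le_add]
    refine le_expect_split L (by omega) (fun A B => 𝔼 x : Fin n → Row n k,
      ind ((Q.comap (phi fun _ i j => decide (i ∈ L ∧ j ∉ L))).run (plant2 A B x) = b))
      fun a ha hA hB => ?_
    have : Nonempty (powersetCard a L) := hA.to_subtype
    have hs : ∀ W : Finset (Fin n), 𝔼 ω : powersetCard a L,
        ind (W ⊆ ω.1) ≤ ((3 * m : ℝ) / n) ^ #W := fun W => by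
      rcases W.eq_empty_or_nonempty with rfl | ⟨w, -⟩
      · rw [card_empty, pow_zero]
        exact expect_le univ_nonempty fun _ _ => ind_le_one _
      · have hn : 0 < n := w.pos
        have hL0 : 0 < #L := by omega
        have h6 := prob_superset (powersetCard_nonempty.1 hA) hL0 W
        rw [expect_coe _ fun S => ind (W ⊆ S)]
        refine le_trans (le_of_eq (expect_congr rfl fun S _ => by simp [ind])) (h6.trans ?_)
        split_ifs
        · refine pow_le_pow_left₀ (by positivity) ?_ _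
          rw [div_le_div_iff₀ (by exact_mod_cast hL0) (by exact_mod_cast hn)]
          have : a * n ≤ 3 * m * #L := by nlinarith
          exact_mod_cast this
        · positivity
    have hθ : 8 * 16 ^ t * (n * ((3 * m : ℝ) / n) ^ 2) ≤ 1 ∧ 2 * (2 ^ t * ((3 * m : ℝ) / n)) ≤ 1 := by
      rcases Nat.eq_zero_or_pos n with h0 | hn
      · simp [h0]
      · have hn' : (0 : ℝ) < n := by exact_mod_cast hn
        have e1 : 8 * 16 ^ t * (n * ((3 * m : ℝ) / n) ^ 2) = 72 * (16 ^ t * m ^ 2) / n := by
          field_simp; ring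
        have e2 : 2 * (2 ^ t * ((3 * m : ℝ) / n)) = 6 * (2 ^ t * m) / n := by ring
        rw [e1, e2, div_le_one hn', div_le_one hn']
        exact ⟨by exact_mod_cast (by omega : 72 * (16 ^ t * m ^ 2) ≤ n),
          by exact_mod_cast (by omega : 6 * (2 ^ t * m) ≤ n)⟩
    have hma : m - a ≤ m := Nat.sub_le m a
    have hη : 16 * 4 ^ k * (2 ^ k) ^ (2 * (t + 1)) * (m - a) * (r + t * t + 2) ≤ #Lᶜ := by
      have e1 : 4 ^ (k * (t + 2)) = 4 ^ k * (2 ^ k) ^ (2 * (t + 1)) := by
        rw [← pow_mul, mul_left_comm, pow_mul 2 2, show 2 ^ 2 = 4 from rfl, ← pow_add]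
        congr 1; ring
      have e2 : 3 * (16 * 4 ^ k * (2 ^ k) ^ (2 * (t + 1)) * m * (r + t * t + 2)) ≤ n :=
        le_of_eq_of_le (by rw [e1]; ring) h1'
      have e3 : 16 * 4 ^ k * (2 ^ k) ^ (2 * (t + 1)) * (m - a) * (r + t * t + 2) ≤
          16 * 4 ^ k * (2 ^ k) ^ (2 * (t + 1)) * m * (r + t * t + 2) := by gcongr
      omega
    have hZ : 16 * 4 ^ k * (2 * (t + 1)) ^ 2 * (m - a) ^ 2 ≤ #Lᶜ := by
      have e1 : 4 ^ k ≤ 4 ^ (k + 2 * t) := Nat.pow_le_pow_right (by norm_num) (by omega)
      have e2 : 3 * (16 * 4 ^ (k + 2 * t) * (2 * (t + 1)) ^ 2 * m ^ 2) ≤ n :=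
        le_of_eq_of_le (by ring) h1
      have e3 : 16 * 4 ^ k * (2 * (t + 1)) ^ 2 * (m - a) ^ 2 ≤
          16 * 4 ^ (k + 2 * t) * (2 * (t + 1)) ^ 2 * m ^ 2 := by gcongr
      omega
    have h := core2 (k := k) (fun ω : powersetCard a L => ω.1) (by positivity) hs hk hθ.1 hθ.2 Lᶜ
      (m := m - a) (by omega) hη hZ h2 (Q.comap (phi fun _ i j => decide (i ∈ L ∧ j ∉ L)))
      (fun i => by rw [Proto.cost_comap]; exact hQ i) b
    rw [sub_le_iff_le_add]
    refine h.trans (le_of_eq ?_)
    congr 1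
    exact expect_congr rfl fun B _ => expect_coe _ fun A => 𝔼 x : Fin n → Row n k,
      ind ((Q.comap (phi fun _ i j => decide (i ∈ L ∧ j ∉ L))).run (plant2 A B x) = b)
  · rw [hτ]
    congr 1
    funext i
    congr 1 <;> funext a j <;> simp [rowView, view]

end Pool.Agent.Lib.MP_21ae8a_lc.BC
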