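import Pool.Agent.Lib.MP_21ae8a_lc.BC.Tree

/-! The directed core bound. -/

namespace Pool.Agent.Lib.MP_21ae8a_lc.BC

open Finset Function MC
open scoped BigOperators

variable {n k : ℕ}

theorem avg_rect (R : Rect n k) : 𝔼 x : Fin n → Row n k, ind (∀ j, x j ∈ R j) = PR R := by
  simp only [ind_forall]
  exact avg_prod (fun j x => ind (x ∈ R j)) univ

theorem avg_rect_plant (M : ℝ) (S : Finset (Fin n)) (R : Rect n k) :
    PR R * wt M ∅ S R ≤ 𝔼 x : Fin n → Row n k, ind (∀ j, plantD S x j ∈ R j) := by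
  simp only [ind_forall, plantD]
  rw [avg_prod (fun j x => ind ((if j ∈ S then x ∪ cl k (S.erase j) else x) ∈ R j)) univ, PR, wt,
    ← prod_mul_distrib, sdiff_empty]
  refine prod_le_prod (fun j _ => mul_nonneg (pr_nonneg _) ?_) fun j _ => ?_
  · split_ifs
    · exact lt_nonneg _ _ _
    · exact zero_le_one
  · split_ifs
    · rw [avg_union _ fun x => ind (x ∈ R j), ← pr_mul_lam]
      exact mul_le_mul_of_nonneg_left (lt_le_lam _ _ _) (pr_nonneg _)
    · exact (mul_one _).le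

theorem excess_le {M : ℝ} (hM : 0 < M) (t : ℕ) (T : Finset (Fin n)) (A : Finset (Row n k)) :
    lam T A - lt M T A ≤ lam T A ^ (t + 1) / M ^ t := by
  have := lam_nonneg T A
  unfold lt
  split_ifs with h
  · rw [sub_self]; positivity
  · rw [sub_zero, le_div_iff₀ (by positivity), pow_succ']
    gcongr
    exact (not_le.1 h).le

theorem lost_le {Ω : Type} [Fintype Ω] [Nonempty Ω] (s : Ω → Finset (Fin n)) {r t : ℕ} {M : ℝ}
    (hM : 1 ≤ M) (hB : 𝔼 σ : Fin ((t + 1) * (2 * r + 2) + 1) → Ω,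
      ∏ j, g (M * (2 ^ k) ^ (t + 1)) (mult (fun a => s (σ a)) j) ≤ 3 ^ ((t + 1) * (2 * r + 2)))
    (P : Proto n (Row n k)) (i : Fin n) (hP : P.cost i ≤ r) :
    𝔼 ω, ((after i P fun _ => univ).map (lost M (s ω) i)).sum ≤ (7 * r + 3) / M ^ t := by
  have h := viol s (fun u : Fin (after i P fun _ => univ).length => (after i P fun _ => univ)[u.1])
    i hM (fun x => by
      rw [Fin.sum_univ_fun_getElem _ fun u : Rect n k => ind (∀ j, x j ∈ u j)]
      exact (after_cover x i P _).trans ((mul_le_of_le_one_right (Nat.cast_nonneg _)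
        (ind_le_one _)).trans (Nat.cast_le.2 hP))) (fun x => by
      rw [Fin.sum_univ_fun_getElem _ fun u : Rect n k => ind (∀ j, x j ∈ update u i univ j)]
      refine (after_cover' x i P _).trans ?_
      have h1 : (2 : ℝ) ^ (P.cost i + 1) ≤ 2 ^ (r + 1) := pow_le_pow_right₀ one_le_two (by omega)
      have h2 : (2 : ℝ) ≤ 2 ^ (P.cost i + 1) := le_self_pow₀ one_le_two (by omega)
      exact (mul_le_of_le_one_right (by linarith) (ind_le_one _)).trans (by linarith)) hB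
  simp only [← Fin.sum_univ_fun_getElem]
  rw [expect_sum_comm]
  refine le_trans ?_ (div_le_div_of_nonneg_right h (by positivity))
  rw [sum_div]
  refine sum_le_sum fun u _ => ?_
  rw [mul_div_assoc, expect_div, mul_expect]
  refine expect_le_expect fun ω _ => mul_le_mul_of_nonneg_left ?_ (PR_nonneg _)
  rw [mul_div_assoc]
  exact mul_le_mul_of_nonneg_left (excess_le (by linarith) _ _ _) (wt_nonneg _ _ _ _)

theorem core_of {Ω : Type} [Fintype Ω] [Nonempty Ω] (s : Ω → Finset (Fin n)) {M δ : ℝ}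
    (hM : 1 ≤ M) (hδ : 0 < δ) (P : Proto n (Row n k))
    (h1 : ∑ i, 𝔼 ω, ((after i P fun _ => univ).map (lost M (s ω) i)).sum ≤ δ ^ 2)
    (h2 : 𝔼 σ : Fin 2 → Ω, ∏ j, g M (mult (fun a => s (σ a)) j) ≤ 1 + δ ^ 2) (b : Bool) :
    𝔼 x, ind (P.run x = b) ≤ 𝔼 ω, 𝔼 x, ind (P.run (plantD (s ω) x) = b) + 2 * δ := by
  obtain ⟨l, hl⟩ : ∃ l, l = leaves P fun _ => univ := ⟨_, rfl⟩
  have e0 : ∀ (x : Fin n → Row n k) (B : Bool → Prop), ind (B (P.run x)) =
      ∑ u : Fin l.length, ind (B l[u.1].2) * ind (∀ j, x j ∈ l[u.1].1 j) := fun x B => by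
    rw [Fin.sum_univ_fun_getElem _ fun l : Rect n k × Bool => ind (B l.2) * ind (∀ j, x j ∈ l.1 j),
      hl, leaves_run, ind_pos fun _ => mem_univ _, mul_one]
  have hc : ∀ x : Fin n → Row n k, ∑ u : Fin l.length, ind (∀ j, x j ∈ l[u.1].1 j) ≤ 1 :=
    fun x => by simpa [ind_pos trivial] using (e0 x fun _ => True).ge
  obtain ⟨L, hL⟩ : ∃ L : Fin l.length → ℝ, ∀ u, L u = 𝔼 ω, wt M ∅ (s ω) l[u.1].1 :=
    ⟨_, fun _ => rfl⟩
  have e1 : 𝔼 x, ind (P.run x = b) = ∑ u : Fin l.length, ind (l[u.1].2 = b) * PR l[u.1].1 := by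
    simp only [e0 _ (· = b)]
    rw [expect_sum_comm]
    exact sum_congr rfl fun u _ => by rw [← mul_expect, avg_rect]
  have e2 : ∑ u : Fin l.length, ind (l[u.1].2 = b) * (PR l[u.1].1 * L u) ≤
      𝔼 ω, 𝔼 x, ind (P.run (plantD (s ω) x) = b) := by
    simp only [e0 _ (· = b), expect_sum_comm, hL, mul_expect]
    refine sum_le_sum fun u _ => expect_le_expect fun ω _ => ?_
    rw [← mul_expect]
    exact mul_le_mul_of_nonneg_left (avg_rect_plant _ _ _) (ind_nonneg _)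
  have e3 := cover_PR _ hc
  have e4 : 1 ≤ ∑ u : Fin l.length, PR l[u.1].1 * L u + δ ^ 2 := by
    refine le_trans ?_ (add_le_add le_rfl h1)
    simp only [hL, mul_expect]
    rw [← expect_sum_comm, ← expect_sum_comm, ← expect_add_distrib]
    refine le_expect univ_nonempty fun ω _ => ?_
    rw [Fin.sum_univ_fun_getElem _ fun l : Rect n k × Bool => PR l.1 * wt M ∅ (s ω) l.1, hl]
    refine le_of_eq_of_le ?_ (first_violation M (s ω) P _)
    simp [PR, wt, pr_univ, lt, lam_univ, hM]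
  have e5 : ∑ u : Fin l.length, PR l[u.1].1 * L u ^ 2 ≤ 1 + δ ^ 2 := by
    refine le_trans ?_ h2
    simp only [hL, ← avg_pow, mul_expect]
    rw [← expect_sum_comm]
    exact expect_le_expect fun σ _ => (replica _ hM hc ∅ _).trans_eq (one_mul _)
  have e6 : ∀ u : Fin l.length, 4 * δ * (ind (l[u.1].2 = b) * PR l[u.1].1) ≤
      4 * δ * (ind (l[u.1].2 = b) * (PR l[u.1].1 * L u)) + ((4 * δ ^ 2 + 1) * PR l[u.1].1 -
        2 * (PR l[u.1].1 * L u) + PR l[u.1].1 * L u ^ 2) := fun u => by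
    have := PR_nonneg l[u.1].1
    by_cases h : l[u.1].2 = b
    · rw [ind_pos h]
      nlinarith [mul_nonneg this (sq_nonneg (1 - L u - 2 * δ))]
    · rw [ind_neg h]
      nlinarith [mul_nonneg this (sq_nonneg (1 - L u)), mul_nonneg this (sq_nonneg δ)]
  have e7 := sum_le_sum fun u (_ : u ∈ univ) => e6 u
  simp only [sum_add_distrib, sum_sub_distrib, ← mul_sum] at e7
  rw [e1]
  refine le_of_mul_le_mul_left ?_ (show 0 < 4 * δ by positivity)
  nlinarith [mul_le_mul_of_nonneg_left e2 hδ.le,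
    mul_le_mul_of_nonneg_left e3 (show 0 ≤ 4 * δ ^ 2 + 1 by positivity)]

theorem core {Ω : Type} [Fintype Ω] [Nonempty Ω] (s : Ω → Finset (Fin n)) {θ : ℝ}
    (hθ : 0 ≤ θ) (hs : ∀ W : Finset (Fin n), 𝔼 ω, ind (W ⊆ s ω) ≤ θ ^ #W) {r t : ℕ}
    (hk : 1 ≤ k) (h1 : 6 * (t + 1) * (r + 1) * 4 ^ (k * (t + 1) + t) * (n * θ ^ 2) ≤ 1)
    (h1' : 6 * (t + 1) * (r + 1) * 4 ^ (k * (t + 1) + t) * θ ≤ 1)
    (h2 : (7 * r + 3) * n * 4 ^ t ≤ 2 ^ (t * t)) (P : Proto n (Row n k))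
    (hP : ∀ i, P.cost i ≤ r) (b : Bool) :
    𝔼 x, ind (P.run x = b) ≤ 𝔼 ω, 𝔼 x, ind (P.run (plantD (s ω) x) = b) + 2 / 2 ^ t := by
  have hM : (1 : ℝ) ≤ 2 ^ t := one_le_pow₀ one_le_two
  obtain ⟨K, hK⟩ : ∃ K : ℝ, K = 2 ^ t * (2 ^ k) ^ (t + 1) := ⟨_, rfl⟩
  have hK2 : (4 : ℝ) ^ (k * (t + 1) + t) = K ^ 2 := by
    rw [hK, ← pow_mul, ← pow_add, ← pow_mul, show (4 : ℝ) = 2 ^ 2 by norm_num, ← pow_mul]
    congr 1
    ring
  have hK3 : 2 * (2 ^ t * 2 ^ t) ≤ K := by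
    rw [hK, ← pow_mul, ← pow_add, ← pow_add, ← pow_succ']
    exact pow_le_pow_right₀ one_le_two (by nlinarith)
  have hK1 : 1 ≤ K := by nlinarith
  rw [hK2] at h1 h1'
  have hA : (1 : ℝ) ≤ (t + 1) * (r + 1) :=
    one_le_mul_of_one_le_of_one_le (by simp) (by simp)
  have hn : (0 : ℝ) ≤ n * θ ^ 2 := by positivity
  rw [mul_assoc 6] at h1 h1'
  rw [div_eq_mul_one_div]
  refine core_of s hM (by positivity) P ?_ ?_ b
  · refine (sum_le_sum fun i _ => lost_le s (t := t) hM ?_ P i (hP i)).trans ?_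
    · rw [← hK]
      have hρ : (((t + 1) * (2 * r + 2) + 1 : ℕ) : ℝ) = 2 * ((t + 1) * (r + 1)) + 1 := by
        push_cast; ring
      have hν : (((t + 1) * (2 * r + 2) : ℕ) : ℝ) = 2 * ((t + 1) * (r + 1)) := by
        push_cast; ring
      refine (moment s hθ (by linarith) hs _ ?_).trans ?_
      · rw [hρ]
        generalize ((t : ℝ) + 1) * (r + 1) = A at *
        have : K * θ ≤ K ^ 2 * θ := by nlinarith [mul_nonneg hθ (sub_nonneg.2 hK1)]
        nlinarith [mul_nonneg (zero_le_one.trans hK1) hθ]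
      · refine le_trans (Real.exp_le_exp.2 ?_) ((Real.exp_nat_mul 1 _).trans_le
          (pow_le_pow_left₀ (Real.exp_pos _).le (Real.exp_one_lt_d9.le.trans (by norm_num)) _))
        rw [hρ, hν]
        generalize ((t : ℝ) + 1) * (r + 1) = A at *
        have h3 : (2 * A + 1) * (K ^ 2 * (n * θ ^ 2)) ≤ 1 / 2 := by
          nlinarith [mul_nonneg (sq_nonneg K) hn]
        nlinarith [mul_le_mul_of_nonneg_left h3 (show 0 ≤ 2 * A + 1 by linarith)]
    · rw [sum_const, card_univ, Fintype.card_fin, nsmul_eq_mul, ← pow_mul, div_pow, one_pow,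
        ← mul_div_assoc, div_le_div_iff₀ (by positivity) (by positivity), one_mul, ← pow_mul,
        mul_comm t 2, pow_mul, mul_comm (n : ℝ)]
      norm_num
      exact_mod_cast h2
  · have h3 : K ^ 2 * θ ≤ 1 / 6 := by nlinarith [mul_nonneg (sq_nonneg K) hθ]
    have h4 : K ^ 2 * (n * θ ^ 2) ≤ 1 / 6 := by nlinarith [mul_nonneg (sq_nonneg K) hn]
    generalize (2 : ℝ) ^ t = M at *
    have h5 : (2 * (M * M)) ^ 2 * (n * θ ^ 2) ≤ 1 / 6 := le_trans (by gcongr) h4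
    have h6 : n * ((2 : ℕ) * (M * θ)) ^ 2 * M ^ 2 ≤ 1 / 6 := le_of_eq_of_le (by push_cast; ring) h5
    have h7 : 0 ≤ n * ((2 : ℕ) * (M * θ)) ^ 2 := by positivity
    refine (moment s hθ (by linarith) hs 2 ?_).trans ?_
    · push_cast
      have : 2 * M ≤ K ^ 2 := by nlinarith
      nlinarith [mul_le_mul_of_nonneg_right this hθ]
    · generalize n * ((2 : ℕ) * (M * θ)) ^ 2 = y at *
      have h8 : 1 ≤ M ^ 2 := one_le_pow₀ hM
      have h9 := Real.abs_exp_sub_one_le (x := y) (by rw [abs_of_nonneg h7]; nlinarith)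
      rw [abs_of_nonneg h7] at h9
      have h10 : 2 * y ≤ (1 / M) ^ 2 := by
        rw [div_pow, one_pow, le_div_iff₀ (by positivity)]
        linarith
      linarith [le_abs_self (Real.exp y - 1)]

end Pool.Agent.Lib.MP_21ae8a_lc.BC
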