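import Pool.Agent.Lib.MP_21ae8a_lc.Defs

/-! Blackboard (broadcast) protocols for the hidden corner problem with `k` samples. -/

namespace Pool.Agent.Lib.MP_21ae8a_lc.BC

open Finset
open scoped BigOperators

/-- A deterministic blackboard protocol for `n` players with views in `V`: a binary tree; at a
node the player `i` writes the bit `f` of its view and the protocol continues in the subtree
named by that bit; a leaf holds the answer. -/
inductive Proto (n : ℕ) (V : Type) : Type
  | leaf (b : Bool) : Proto n V
  | node (i : Fin n) (f : V → Bool) (t₀ t₁ : Proto n V) : Proto n V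

/-- The answer of the protocol when player `i` has view `v i`. -/
def Proto.run {n : ℕ} {V : Type} (v : Fin n → V) : Proto n V → Bool
  | .leaf b => b
  | .node i f t₀ t₁ => if f (v i) = true then t₁.run v else t₀.run v

/-- The largest number of bits player `i` writes on a path from the root to a leaf. -/
def Proto.cost {n : ℕ} {V : Type} (i : Fin n) : Proto n V → ℕ
  | .leaf _ => 0
  | .node j _ t₀ t₁ => (if j = i then 1 else 0) + max (t₀.cost i) (t₁.cost i)

/-- `k` matrices. -/
abbrev Mats (n k : ℕ) : Type := Fin k → Matrix (Fin n) (Fin n) ℝ

/-- The test gets `k` independent Model B matrices with a common uniform `m`-set `S` and `k`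
independent Model A matrices, the two groups in uniform order; this is the probability that it
names the Model B group (`true`: the first group). -/
noncomputable def successK {n k : ℕ} (m : ℕ) (τ : Mats n k → Mats n k → Bool) : ℝ :=
  𝔼 S ∈ powersetCard m (univ : Finset (Fin n)), 𝔼 x : Fin k → Pos n → Bool,
    𝔼 y : Fin k → Pos n → Bool,
    ((if τ (fun a => modelB S (x a)) (fun a => modelA (y a)) = true then (1 : ℝ) else 0) +
      (if τ (fun a => modelA (y a)) (fun a => modelB S (x a)) = false then (1 : ℝ) else 0)) / 2

/-- The part of row `i` of the matrices that player `i` owns (other entries are shown as `0`). -/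
def view {n k : ℕ} (own : Fin k → Fin n → Fin n → Bool) (M : Mats n k) (i : Fin n) :
    Fin k → Fin n → ℝ :=
  fun a j => if own a i j = true then M a i j else 0

/-- The test is computed by a blackboard protocol in which player `i` sees the entries it owns
in row `i` of all `2 k` matrices, no pair `{i, j}` of a matrix is owned by both `i` and `j`, and
every player writes at most `r` bits. -/
def IsBroadcastTest {n k : ℕ} (r : ℕ) (τ : Mats n k → Mats n k → Bool) : Prop :=
  ∃ (own : Fin k → Fin n → Fin n → Bool)
    (P : Proto n ((Fin k → Fin n → ℝ) × (Fin k → Fin n → ℝ))),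
    (∀ a i j, ¬(own a i j = true ∧ own a j i = true)) ∧ (∀ i, P.cost i ≤ r) ∧
      ∀ M N, τ M N = P.run fun i => (view own M i, view own N i)

end Pool.Agent.Lib.MP_21ae8a_lc.BC
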