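import Pool.Agent.Lib.MP_21ae8a_lc.BC.Core

/-! From the directed core bound to the symmetric models with owned entries. -/

namespace Pool.Agent.Lib.MP_21ae8a_lc.BC

open Finset Function MC
open scoped BigOperators

variable {n k : ℕ}

/-- The protocol in which every player first maps its view. -/
def Proto.comap {V V' : Type} (φ : Fin n → V → V') : Proto n V' → Proto n V
  | .leaf b => .leaf b
  | .node i f t₀ t₁ => .node i (fun v => f (φ i v)) (t₀.comap φ) (t₁.comap φ)

theorem Proto.run_comap {V V' : Type} (φ : Fin n → V → V') (v : Fin n → V) (P : Proto n V') :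
    (P.comap φ).run v = P.run fun i => φ i (v i) := by
  induction P with
  | leaf b => rfl
  | node i f t₀ t₁ h₀ h₁ => simp only [Proto.comap, Proto.run, h₀, h₁]

theorem Proto.cost_comap {V V' : Type} (φ : Fin n → V → V') (i : Fin n) (P : Proto n V') :
    (P.comap φ).cost i = P.cost i := by
  induction P with
  | leaf b => rfl
  | node j f t₀ t₁ h₀ h₁ => simp only [Proto.comap, Proto.cost, h₀, h₁]

theorem expect_comp_inj {A B : Type} [Fintype A] [DecidableEq A] [Fintype B] [DecidableEq B]
    {ι : A → B} (hι : Injective ι) (F : (A → Bool) → ℝ) :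
    𝔼 w : B → Bool, F (w ∘ ι) = 𝔼 z, F z := by
  have h : Involutive fun p : (B → Bool) × (A → Bool) => (extend ι p.2 p.1, p.1 ∘ ι) :=
    fun p => by
    refine Prod.ext (funext fun b => ?_) (funext fun a => hι.extend_apply _ _ a)
    by_cases hb : ∃ a, ι a = b
    · obtain ⟨a, rfl⟩ := hb
      exact hι.extend_apply _ _ a
    · exact (extend_apply' _ _ b hb).trans (extend_apply' _ _ b hb)
  have := Fintype.expect_bijective _ h.bijective (fun p => F (p.1 ∘ ι)) (fun p => F p.2)
    fun _ => rfl
  rw [← univ_product_univ, expect_product, expect_product] at this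
  simpa only [Fintype.expect_const] using this

/-- The bits of the symmetric matrices read off the rows of their owners. -/
def psi (own : Fin k → Fin n → Fin n → Bool) (x : Fin n → Row n k) : Fin k → Pos n → Bool :=
  fun a e => if own a e.1.2 e.1.1 = true then decide ((a, e.1.1) ∈ x e.1.2)
    else decide ((a, e.1.2) ∈ x e.1.1)

theorem expect_psi (own : Fin k → Fin n → Fin n → Bool) (F : (Fin k → Pos n → Bool) → ℝ) :
    𝔼 x : Fin n → Row n k, F (psi own x) = 𝔼 y, F y := by
  let ι : Fin k × Pos n → Fin n × Fin k × Fin n := fun q =>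
    if own q.1 q.2.1.2 q.2.1.1 = true then (q.2.1.2, q.1, q.2.1.1) else (q.2.1.1, q.1, q.2.1.2)
  have hι : Injective ι := by
    rintro ⟨a, ⟨⟨i, j⟩, h⟩⟩ ⟨a', ⟨⟨i', j'⟩, h'⟩⟩ hq
    simp only [ι] at hq h h'
    split_ifs at hq <;> simp only [Prod.mk.injEq] at hq <;> obtain ⟨rfl, rfl, rfl⟩ := hq
    · rfl
    · exact absurd h (lt_asymm h')
    · exact absurd h (lt_asymm h')
    · rfl
  have hb : Bijective fun (x : Fin n → Row n k) (b : Fin n × Fin k × Fin n) =>
      decide (b.2 ∈ x b.1) := by
    refine ⟨fun x x' h => funext fun i => Finset.ext fun c => ?_,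
      fun w => ⟨fun i => univ.filter fun c => w (i, c) = true, funext fun b => by simp⟩⟩
    simpa using congrFun h (i, c)
  rw [Fintype.expect_bijective _ hb (fun x => F (psi own x))
    (fun w => F (curry (w ∘ ι))) fun x => ?_, expect_comp_inj hι fun z => F (curry z)]
  · exact Fintype.expect_equiv (Equiv.curry _ _ _) _ _ fun _ => rfl
  · congr 1
    funext a e
    simp only [psi, curry, comp, ι]
    split_ifs <;> rfl

/-- The view of a player computed from its row. -/
def phi (own : Fin k → Fin n → Fin n → Bool) (i : Fin n) (z : Row n k) : Fin k → Fin n → ℝ :=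
  fun a j => if own a i j = true then sg (decide ((a, j) ∈ z)) else 0

theorem modelA_psi {own : Fin k → Fin n → Fin n → Bool}
    (ho : ∀ a i j, ¬(own a i j = true ∧ own a j i = true)) (x : Fin n → Row n k) {a : Fin k}
    {i j : Fin n} (h : own a i j = true) :
    modelA (psi own x a) i j = sg (decide ((a, j) ∈ x i)) := by
  have h' : ¬own a j i = true := fun h' => ho a i j ⟨h, h'⟩
  rcases lt_trichotomy i j with hij | rfl | hij
  · simp only [modelA, dif_pos hij, psi, if_neg h']
  · exact absurd h h'
  · simp only [modelA, dif_neg (lt_asymm hij), dif_pos hij, psi, if_pos h]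

theorem view_A {own : Fin k → Fin n → Fin n → Bool}
    (ho : ∀ a i j, ¬(own a i j = true ∧ own a j i = true)) (x : Fin n → Row n k) (i : Fin n) :
    view own (fun a => modelA (psi own x a)) i = phi own i (x i) := by
  funext a j
  simp only [view, phi]
  split_ifs with h
  · exact modelA_psi ho x h
  · rfl

theorem view_B {own : Fin k → Fin n → Fin n → Bool}
    (ho : ∀ a i j, ¬(own a i j = true ∧ own a j i = true)) (S : Finset (Fin n))
    (x : Fin n → Row n k) (i : Fin n) :
    view own (fun a => modelB S (psi own x a)) i = phi own i (plantD S x i) := by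
  funext a j
  simp only [view, phi]
  split_ifs with h
  · have hij : i ≠ j := fun e => ho a i j ⟨h, by subst e; exact h⟩
    rw [modelB, modelA_psi ho x h, plantD]
    by_cases hi : i ∈ S <;> by_cases hj : j ∈ S <;> simp [hi, hj, hij, hij.symm, cl, sg]
  · rfl

theorem expect_coe {α : Type} (s : Finset α) (f : α → ℝ) : 𝔼 i : s, f i = 𝔼 i ∈ s, f i := by
  rw [expect_eq_sum_div_card, expect_eq_sum_div_card, card_univ, Fintype.card_coe, sum_coe_sort]

theorem ite_bool (c b : Bool) : (if c = b then (1 : ℝ) else 0) = 1 - ind (c = !b) := by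
  cases c <;> cases b <;> simp [ind]

theorem main (n k m r t : ℕ) (hk : 1 ≤ k)
    (h1 : 6 * (t + 1) * (r + 1) * 4 ^ (k * (t + 1) + t) * m ^ 2 ≤ n)
    (h2 : (7 * r + 3) * n * 4 ^ t ≤ 2 ^ (t * t)) (τ : Mats n k → Mats n k → Bool)
    (hτ : IsBroadcastTest r τ) : successK m τ ≤ 1 / 2 + 2 / 2 ^ t := by
  obtain ⟨own, P, ho, hP, hτ⟩ := hτ
  obtain ⟨c, hc⟩ : ∃ c, c = 6 * (t + 1) * (r + 1) * 4 ^ (k * (t + 1) + t) := ⟨_, rfl⟩
  have hc' : (6 * (t + 1) * (r + 1) * 4 ^ (k * (t + 1) + t) : ℝ) = c := by rw [hc]; push_cast; rfl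
  have hc0 : 1 ≤ c := by rw [hc]; exact Nat.one_le_iff_ne_zero.2 (by positivity)
  rw [← hc] at h1
  have hcm : c * m ≤ n := le_trans (Nat.mul_le_mul_left c (Nat.le_self_pow two_ne_zero m)) h1
  have hmn : m ≤ n := le_trans (Nat.le_mul_of_pos_left m hc0) hcm
  have hne : (powersetCard m (univ : Finset (Fin n))).Nonempty :=
    powersetCard_nonempty.2 (by simpa using hmn)
  have : Nonempty (powersetCard m (univ : Finset (Fin n))) := hne.to_subtype
  have hs : ∀ W : Finset (Fin n), 𝔼 ω : powersetCard m (univ : Finset (Fin n)),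
      ind (W ⊆ ω.1) ≤ ((m : ℝ) / n) ^ #W := fun W => by
    rcases W.eq_empty_or_nonempty with rfl | ⟨w, -⟩
    · rw [card_empty, pow_zero]
      exact expect_le univ_nonempty fun _ _ => ind_le_one _
    · have := prob_superset (T := (univ : Finset (Fin n))) (m := m) (by simpa using hmn)
        (card_pos.2 ⟨w, mem_univ _⟩) W
      rw [if_pos (subset_univ _), card_univ, Fintype.card_fin] at this
      rw [expect_coe _ fun S => ind (W ⊆ S)]
      exact le_trans (le_of_eq (expect_congr rfl fun S _ => by simp [ind])) this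
  have hA : (c : ℝ) * (n * ((m : ℝ) / n) ^ 2) ≤ 1 ∧ (c : ℝ) * ((m : ℝ) / n) ≤ 1 := by
    rcases Nat.eq_zero_or_pos n with rfl | hn
    · simp
    · have hn' : (0 : ℝ) < n := by exact_mod_cast hn
      have e1 : (c : ℝ) * (n * ((m : ℝ) / n) ^ 2) = c * m ^ 2 / n := by field_simp
      rw [e1, ← mul_div_assoc, div_le_one hn', div_le_one hn']
      exact ⟨by exact_mod_cast h1, by exact_mod_cast hcm⟩
  have key : ∀ (G : Mats n k → Bool) (Q : Proto n (Fin k → Fin n → ℝ)), (∀ i, Q.cost i ≤ r) →
      (∀ M, G M = Q.run (view own M)) → ∀ b : Bool,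
      𝔼 S ∈ powersetCard m (univ : Finset (Fin n)), 𝔼 x : Fin k → Pos n → Bool,
        (if G (fun a => modelB S (x a)) = b then (1 : ℝ) else 0) ≤
      𝔼 x : Fin k → Pos n → Bool, (if G (fun a => modelA (x a)) = b then (1 : ℝ) else 0) +
        2 / 2 ^ t := fun G Q hQ hG b => by
    have h := core (k := k) (fun ω : powersetCard m (univ : Finset (Fin n)) => ω.1)
      (by positivity) hs hk (hc' ▸ hA.1) (hc' ▸ hA.2) h2 (Q.comap (phi own))
      (fun i => by rw [Proto.cost_comap]; exact hQ i) (!b)
    have eA : 𝔼 x : Fin k → Pos n → Bool, ind (G (fun a => modelA (x a)) = !b) =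
        𝔼 x : Fin n → Row n k, ind ((Q.comap (phi own)).run x = !b) := by
      rw [← expect_psi own]
      refine expect_congr rfl fun x _ => ?_
      rw [hG, Proto.run_comap, funext (view_A ho x)]
    have eB : ∀ S, 𝔼 x : Fin k → Pos n → Bool, ind (G (fun a => modelB S (x a)) = !b) =
        𝔼 x : Fin n → Row n k, ind ((Q.comap (phi own)).run (plantD S x) = !b) := fun S => by
      rw [← expect_psi own]
      refine expect_congr rfl fun x _ => ?_
      rw [hG, Proto.run_comap, funext (view_B ho S x)]
    rw [expect_coe _ fun S =>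
      𝔼 x : Fin n → Row n k, ind ((Q.comap (phi own)).run (plantD S x) = !b)] at h
    simp only [ite_bool, expect_sub_distrib, Fintype.expect_const, expect_const hne, eA, eB]
    linarith
  have k1 := fun y : Fin k → Pos n → Bool => key (fun M => τ M fun a => modelA (y a))
    (P.comap fun i v => (v, view own (fun a => modelA (y a)) i))
    (fun i => by rw [Proto.cost_comap]; exact hP i) (fun M => by rw [hτ, Proto.run_comap]) true
  have k2 := fun y : Fin k → Pos n → Bool => key (fun M => τ (fun a => modelA (y a)) M)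
    (P.comap fun i v => (view own (fun a => modelA (y a)) i, v))
    (fun i => by rw [Proto.cost_comap]; exact hP i) (fun M => by rw [hτ, Proto.run_comap]) false
  have s1 := expect_le_expect fun y (_ : y ∈ univ) => k1 y
  have s2 := expect_le_expect fun y (_ : y ∈ univ) => k2 y
  rw [expect_add_distrib, Fintype.expect_const] at s1 s2
  have s3 : (𝔼 y : Fin k → Pos n → Bool, 𝔼 x : Fin k → Pos n → Bool,
        if τ (fun a => modelA (x a)) (fun a => modelA (y a)) = true then (1 : ℝ) else 0) +
      (𝔼 y : Fin k → Pos n → Bool, 𝔼 x : Fin k → Pos n → Bool,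
        if τ (fun a => modelA (y a)) (fun a => modelA (x a)) = false then (1 : ℝ) else 0) = 1 := by
    rw [expect_comm, ← expect_add_distrib]
    refine (expect_congr rfl fun y _ => ?_).trans (Fintype.expect_const 1)
    rw [← expect_add_distrib]
    refine (expect_congr rfl fun x _ => ?_).trans (Fintype.expect_const 1)
    cases τ (fun a => modelA (y a)) (fun a => modelA (x a)) <;> simp
  have s4 : successK m τ =
      ((𝔼 y : Fin k → Pos n → Bool, 𝔼 S ∈ powersetCard m (univ : Finset (Fin n)),
        𝔼 x : Fin k → Pos n → Bool,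
        if τ (fun a => modelB S (x a)) (fun a => modelA (y a)) = true then (1 : ℝ) else 0) +
      (𝔼 y : Fin k → Pos n → Bool, 𝔼 S ∈ powersetCard m (univ : Finset (Fin n)),
        𝔼 x : Fin k → Pos n → Bool,
        if τ (fun a => modelA (y a)) (fun a => modelB S (x a)) = false then (1 : ℝ) else 0)) / 2 := by
    rw [expect_comm univ, expect_comm univ (powersetCard m univ), ← expect_add_distrib, successK,
      expect_div]
    refine expect_congr rfl fun S _ => ?_
    rw [expect_comm, ← expect_add_distrib, expect_div]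
    refine expect_congr rfl fun y _ => ?_
    rw [← expect_add_distrib, expect_div]
  rw [s4]
  linarith

end Pool.Agent.Lib.MP_21ae8a_lc.BC
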