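import Pool.Agent.Lib.MP_21ae8a_lc.BC.Basic

/-! Moments of overlaps of spread random sets and of products of densities. -/

namespace Pool.Agent.Lib.MP_21ae8a_lc.BC

open Finset Function MC
open scoped BigOperators

variable {n k : ℕ}

noncomputable def hw {ρ : ℕ} (K : ℝ) (J : Finset (Fin ρ)) : ℝ := if #J = 1 then 0 else K ^ #J

theorem hw_nonneg {ρ : ℕ} {K : ℝ} (hK : 0 ≤ K) (J : Finset (Fin ρ)) : 0 ≤ hw K J := by
  unfold hw; split_ifs <;> positivity

theorem g_le_sum {ρ : ℕ} {K : ℝ} (hK : 0 ≤ K) (S : Fin ρ → Finset (Fin n)) (j : Fin n) :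
    g K (mult S j) ≤ ∑ J : Finset (Fin ρ), hw K J * ind (∀ a ∈ J, j ∈ S a) := by
  have h0 : ∀ J ∈ (univ : Finset (Finset (Fin ρ))), 0 ≤ hw K J * ind (∀ a ∈ J, j ∈ S a) :=
    fun J _ => mul_nonneg (hw_nonneg hK J) (ind_nonneg _)
  by_cases h : 2 ≤ mult S j
  · refine le_trans (le_of_eq ?_) (single_le_sum h0 (mem_univ ({a | j ∈ S a} : Finset (Fin ρ))))
    have h1 : #({a | j ∈ S a} : Finset (Fin ρ)) ≠ 1 := by unfold mult at h; omega
    rw [g, if_pos h, hw, if_neg h1, ind_pos fun a ha => (mem_filter.1 ha).2, mul_one, mult]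
  · refine le_trans (le_of_eq ?_) (single_le_sum h0 (mem_univ (∅ : Finset (Fin ρ))))
    rw [g, if_neg h, hw, ind_pos fun a ha => absurd ha (notMem_empty a)]
    simp

theorem sum_hw {ρ : ℕ} {K θ : ℝ} (hx : 0 ≤ K * θ) (hρ : ρ * (K * θ) ≤ 1) :
    ∑ J : Finset (Fin ρ), hw K J * θ ^ #J ≤ Real.exp ((ρ * (K * θ)) ^ 2) := by
  have h1 : ∀ J : Finset (Fin ρ),
      hw K J * θ ^ #J = (∏ _a ∈ J, K * θ) - if #J = 1 then K * θ else 0 := fun J => by
    unfold hw; split_ifs with h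
    · simp [h]
    · simp [mul_pow]
  have h2 : ∑ J : Finset (Fin ρ), ∏ _a ∈ J, K * θ = (1 + K * θ) ^ ρ := by
    have := prod_one_add (f := fun _ : Fin ρ => K * θ) univ
    rw [powerset_univ] at this
    rw [← this]; simp
  have h3 : ∑ J : Finset (Fin ρ), (if #J = 1 then K * θ else 0) = ρ * (K * θ) := by
    rw [← sum_filter, sum_const, ← powerset_univ, ← powersetCard_eq_filter, card_powersetCard]
    simp
  rw [sum_congr rfl fun J _ => h1 J, sum_sub_distrib, h2, h3]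
  have h4 : (1 + K * θ) ^ ρ ≤ Real.exp (ρ * (K * θ)) := by
    rw [Real.exp_nat_mul]
    exact pow_le_pow_left₀ (by linarith) (by linarith [Real.add_one_le_exp (K * θ)]) ρ
  have h5 := Real.abs_exp_sub_one_sub_id_le (x := ρ * (K * θ))
    (by rw [abs_of_nonneg (by positivity)]; exact hρ)
  have h6 := Real.add_one_le_exp ((ρ * (K * θ)) ^ 2)
  linarith [(abs_le.1 h5).2]

theorem moment {Ω : Type} [Fintype Ω] [Nonempty Ω] (s : Ω → Finset (Fin n)) {θ K : ℝ}
    (hθ : 0 ≤ θ) (hK : 0 ≤ K) (hs : ∀ W : Finset (Fin n), 𝔼 ω, ind (W ⊆ s ω) ≤ θ ^ #W) (ρ : ℕ)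
    (hρ : ρ * (K * θ) ≤ 1) :
    𝔼 σ : Fin ρ → Ω, ∏ j, g K (mult (fun a => s (σ a)) j) ≤
      Real.exp (n * (ρ * (K * θ)) ^ 2) := by
  have hg : ∀ c, 0 ≤ g K c := fun c => by unfold g; split_ifs <;> positivity
  have h1 : ∀ σ : Fin ρ → Ω, ∏ j, g K (mult (fun a => s (σ a)) j) ≤
      ∑ J : Fin n → Finset (Fin ρ), (∏ j, hw K (J j)) *
        ∏ a, ind (({j | a ∈ J j} : Finset (Fin n)) ⊆ s (σ a)) := fun σ => by
    refine (prod_le_prod (fun j _ => hg _) fun j _ => g_le_sum hK _ j).trans (le_of_eq ?_)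
    rw [Fintype.prod_sum]
    refine sum_congr rfl fun J _ => ?_
    rw [prod_mul_distrib, ← ind_forall, ← ind_forall]
    congr 1
    refine ind_congr ⟨fun h a j hj => h j a (mem_filter.1 hj).2, fun h j a ha => h a ?_⟩
    exact mem_filter.2 ⟨mem_univ _, ha⟩
  have h2 : ∀ J : Fin n → Finset (Fin ρ),
      𝔼 σ : Fin ρ → Ω, ∏ a, ind (({j | a ∈ J j} : Finset (Fin n)) ⊆ s (σ a)) ≤
        ∏ j, θ ^ #(J j) := fun J => by
    rw [avg_prod fun a ω => ind (({j | a ∈ J j} : Finset (Fin n)) ⊆ s ω)]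
    refine (prod_le_prod (fun a _ => expect_nonneg fun _ _ => ind_nonneg _)
      fun a _ => hs _).trans (le_of_eq ?_)
    rw [prod_pow_eq_pow_sum, prod_pow_eq_pow_sum]
    congr 1
    simp only [card_filter]
    rw [sum_comm]
    exact sum_congr rfl fun j _ => by simp
  refine (expect_le_expect fun σ _ => h1 σ).trans ?_
  rw [expect_sum_comm]
  calc ∑ J : Fin n → Finset (Fin ρ), 𝔼 σ : Fin ρ → Ω, (∏ j, hw K (J j)) *
        ∏ a, ind (({j | a ∈ J j} : Finset (Fin n)) ⊆ s (σ a))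
      ≤ ∑ J : Fin n → Finset (Fin ρ), ∏ j, hw K (J j) * θ ^ #(J j) := by
        refine sum_le_sum fun J _ => ?_
        rw [← mul_expect, prod_mul_distrib]
        exact mul_le_mul_of_nonneg_left (h2 J) (prod_nonneg fun j _ => hw_nonneg hK _)
    _ = ∏ _j : Fin n, ∑ J : Finset (Fin ρ), hw K J * θ ^ #J :=
        (Fintype.prod_sum fun (_ : Fin n) (J : Finset (Fin ρ)) => hw K J * θ ^ #J).symm
    _ ≤ ∏ _j : Fin n, Real.exp ((ρ * (K * θ)) ^ 2) :=
        prod_le_prod (fun _ _ => sum_nonneg fun J _ => mul_nonneg (hw_nonneg hK J) (by positivity))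
          fun _ _ => sum_hw (mul_nonneg hK hθ) hρ
    _ = _ := by rw [prod_const, card_univ, Fintype.card_fin, Real.exp_nat_mul]

theorem two_pow_card (H : Row n k) : (2 : ℝ) ^ #H = ∏ p, if p ∈ H then (2 : ℝ) else 1 := by
  rw [prod_ite_mem, univ_inter, prod_const]

theorem dens_moment {ρ : ℕ} (T : Fin ρ → Finset (Fin n)) :
    𝔼 x : Row n k, ∏ a, dens (cl k (T a)) x ≤ ∏ j, g (2 ^ k) (mult T j) := by
  have hg : ∀ c, 0 ≤ g 2 c := fun c => zero_le_one.trans (one_le_g one_le_two c)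
  have h1 : ∀ x : Row n k, ∏ a, dens (cl k (T a)) x ≤ (∏ p : Fin k × Fin n, g 2 (mult T p.2)) *
      dens (univ.filter fun p : Fin k × Fin n => 1 ≤ mult T p.2) x := fun x => by
    by_cases h : ∀ a, cl k (T a) ⊆ x
    · have hU : (univ.filter fun p : Fin k × Fin n => 1 ≤ mult T p.2) ⊆ x := fun p hp => by
        obtain ⟨a, ha⟩ := card_pos.1 (show 0 < mult T p.2 from (mem_filter.1 hp).2)
        exact h a (mem_product.2 ⟨mem_univ _, (mem_filter.1 ha).2⟩)
      rw [prod_congr rfl fun a _ => by rw [MC.dens, ind_pos (h a), mul_one, two_pow_card], MC.dens,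
        ind_pos hU, mul_one, two_pow_card, prod_comm, ← prod_mul_distrib]
      refine prod_le_prod (fun p _ => prod_nonneg fun a _ => by split_ifs <;> norm_num)
        fun p _ => ?_
      have h2 : (∏ a, if p ∈ cl k (T a) then (2 : ℝ) else 1) = 2 ^ mult T p.2 := by
        rw [mult, ← prod_filter, prod_const]
        congr 2
        ext a
        simp [cl]
      rw [h2, g]
      simp only [mem_filter, mem_univ, true_and]
      split_ifs with h3 h4 h4
      · linarith [pow_pos (two_pos (α := ℝ)) (mult T p.2)]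
      · omega
      · rw [show mult T p.2 = 1 by omega]; norm_num
      · rw [show mult T p.2 = 0 by omega]; norm_num
    · obtain ⟨a, ha⟩ := not_forall.1 h
      rw [prod_eq_zero (mem_univ a) (by rw [MC.dens, ind_neg ha, mul_zero])]
      exact mul_nonneg (prod_nonneg fun _ _ => hg _) (dens_nonneg _ _)
  refine (expect_le_expect fun x _ => h1 x).trans (le_of_eq ?_)
  rw [← mul_expect, avg_dens, mul_one, Fintype.prod_prod_type, prod_comm]
  exact prod_congr rfl fun j _ => by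
    rw [← g_pow]; simp

end Pool.Agent.Lib.MP_21ae8a_lc.BC
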