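import Pool.Agent.Lib.MP_21ae8a_lc.BC.Basic

/-! Covers by rectangles and the replica bound. -/

namespace Pool.Agent.Lib.MP_21ae8a_lc.BC

open Finset Function MC
open scoped BigOperators

variable {n k : ℕ} {U : Type} [Fintype U]

theorem avg_pow {A : Type} [Fintype A] [Nonempty A] (f : A → ℝ) (ρ : ℕ) :
    𝔼 σ : Fin ρ → A, ∏ a, f (σ a) = (𝔼 x, f x) ^ ρ := by
  rw [avg_prod (fun _ => f) univ, prod_const, card_univ, Fintype.card_fin]

theorem cover (R : U → Rect n k) {c : ℝ}
    (hc : ∀ x : Fin n → Row n k, ∑ u, ind (∀ j, x j ∈ R u j) ≤ c) (d : Fin n → Row n k → ℝ)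
    (hd0 : ∀ j x, 0 ≤ d j x) (hd1 : ∀ j, 𝔼 x, d j x = 1) :
    ∑ u, ∏ j, 𝔼 x, d j x * ind (x ∈ R u j) ≤ c := by
  have h1 : ∀ u, ∏ j, 𝔼 x, d j x * ind (x ∈ R u j) =
      𝔼 x : Fin n → Row n k, (∏ j, d j (x j)) * ind (∀ j, x j ∈ R u j) := fun u => by
    rw [← avg_prod (fun j x => d j x * ind (x ∈ R u j)) univ]
    exact expect_congr rfl fun x _ => by rw [prod_mul_distrib, ind_forall]
  have h2 : 𝔼 x : Fin n → Row n k, ∏ j, d j (x j) = 1 := by
    rw [avg_prod d univ, prod_eq_one fun j _ => hd1 j]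
  simp only [h1]
  rw [← expect_sum_comm]
  calc _ ≤ 𝔼 x : Fin n → Row n k, (∏ j, d j (x j)) * c := expect_le_expect fun x _ => by
        rw [← mul_sum]
        exact mul_le_mul_of_nonneg_left (hc x) (prod_nonneg fun j _ => hd0 j _)
    _ = c := by rw [← expect_mul, h2, one_mul]

theorem cover_PR (R : U → Rect n k) {c : ℝ}
    (hc : ∀ x : Fin n → Row n k, ∑ u, ind (∀ j, x j ∈ R u j) ≤ c) : ∑ u, PR (R u) ≤ c := by
  simpa [PR, pr] using cover R hc (fun _ _ => 1) (fun _ _ => zero_le_one) fun _ => by simp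

theorem replica (R : U → Rect n k) {c M : ℝ} (hM : 1 ≤ M)
    (hc : ∀ x : Fin n → Row n k, ∑ u, ind (∀ j, x j ∈ R u j) ≤ c) (I : Finset (Fin n)) {ρ : ℕ}
    (S : Fin ρ → Finset (Fin n)) :
    ∑ u, PR (R u) * ∏ a, wt M I (S a) (R u) ≤ c * ∏ j, g M (mult S j) := by
  have key : ∀ j, ∃ d : Row n k → ℝ, (∀ x, 0 ≤ d x) ∧ 𝔼 x, d x = 1 ∧ ∀ A : Finset (Row n k),
      pr A * ∏ a, (if j ∈ S a \ I then lt M ((S a).erase j) A else 1) ≤
        g M (mult S j) * 𝔼 x, d x * ind (x ∈ A) := fun j => by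
    by_cases h : ∃ a, j ∈ S a \ I
    · obtain ⟨a, ha⟩ := h
      refine ⟨dens (cl k ((S a).erase j)), dens_nonneg _, avg_dens _, fun A => ?_⟩
      rw [← pr_mul_lam, ← mul_prod_erase univ _ (mem_univ a), if_pos ha, ← mul_assoc, mul_comm]
      refine mul_le_mul ?_ (mul_le_mul_of_nonneg_left (lt_le_lam _ _ _) (pr_nonneg _))
        (mul_nonneg (pr_nonneg _) (lt_nonneg _ _ _)) (zero_le_one.trans (one_le_g hM _))
      have h1 : ∏ b ∈ univ.erase a, (if j ∈ S b \ I then lt M ((S b).erase j) A else 1) ≤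
          ∏ b ∈ univ.erase a, if j ∈ S b then M else 1 := by
        refine prod_le_prod (fun b _ => ?_) fun b _ => ?_
        · split_ifs
          · exact lt_nonneg _ _ _
          · exact zero_le_one
        · by_cases hb : j ∈ S b \ I
          · rw [if_pos hb, if_pos (mem_sdiff.1 hb).1]
            exact lt_le (zero_le_one.trans hM) _ _
          · rw [if_neg hb]
            split_ifs
            · exact hM
            · exact le_rfl
      refine h1.trans ?_
      rw [← prod_filter, prod_const]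
      have h2 : #((univ.erase a).filter fun b => j ∈ S b) + 1 = mult S j := by
        rw [filter_erase, card_erase_add_one (by simpa using (mem_sdiff.1 ha).1), mult]
      rw [← h2, g]
      split_ifs with h3
      · exact pow_le_pow_right₀ hM (Nat.le_succ _)
      · rw [show #((univ.erase a).filter fun b => j ∈ S b) = 0 by omega, pow_zero]
    · refine ⟨fun _ => 1, fun _ => zero_le_one, by simp, fun A => ?_⟩
      rw [prod_eq_one fun a _ => if_neg fun ha => h ⟨a, ha⟩, mul_one]
      simp only [one_mul]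
      exact le_mul_of_one_le_left (pr_nonneg A) (one_le_g hM _)
  choose d hd0 hd1 hd using key
  calc _ ≤ ∑ u, (∏ j, g M (mult S j)) * ∏ j, 𝔼 x, d j x * ind (x ∈ R u j) :=
        sum_le_sum fun u _ => by
          simp only [PR, wt]
          rw [prod_comm, ← prod_mul_distrib, ← prod_mul_distrib]
          refine prod_le_prod (fun j _ => mul_nonneg (pr_nonneg _) (prod_nonneg fun a _ => ?_))
            fun j _ => hd j _
          split_ifs
          · exact lt_nonneg _ _ _
          · exact zero_le_one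
    _ ≤ _ := by
        rw [← mul_sum, mul_comm]
        exact mul_le_mul_of_nonneg_right (cover R hc d hd0 hd1)
          (prod_nonneg fun j _ => zero_le_one.trans (one_le_g hM _))

end Pool.Agent.Lib.MP_21ae8a_lc.BC
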