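import Pool.Agent.Lib.MP_21ae8a_lc.BC.Viol

/-! The rectangles of a protocol tree and the first violation. -/

namespace Pool.Agent.Lib.MP_21ae8a_lc.BC

open Finset Function MC
open scoped BigOperators

variable {n k : ℕ}

def half (R : Rect n k) (i : Fin n) (f : Row n k → Bool) (c : Bool) : Rect n k :=
  update R i ((R i).filter fun x => f x = c)

def leaves : Proto n (Row n k) → Rect n k → List (Rect n k × Bool)
  | .leaf b, R => [(R, b)]
  | .node i f t₀ t₁, R => leaves t₀ (half R i f false) ++ leaves t₁ (half R i f true)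

def after (i : Fin n) : Proto n (Row n k) → Rect n k → List (Rect n k)
  | .leaf _, _ => []
  | .node j f t₀ t₁, R => (if j = i then [half R j f false, half R j f true] else []) ++
      (after i t₀ (half R j f false) ++ after i t₁ (half R j f true))

theorem ind_half (R : Rect n k) (i : Fin n) (f : Row n k → Bool) (c : Bool)
    (x : Fin n → Row n k) :
    ind (∀ j, x j ∈ half R i f c j) = ind (f (x i) = c) * ind (∀ j, x j ∈ R j) := by
  rw [← ind_and]
  refine ind_congr ((forall_update_iff R fun j A => x j ∈ A).trans ?_)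
  rw [mem_filter]
  refine ⟨fun h => ⟨h.1.2, fun j => ?_⟩, fun h => ⟨⟨h.2 i, h.1⟩, fun j _ => h.2 j⟩⟩
  by_cases hj : j = i
  · exact hj ▸ h.1.1
  · exact h.2 j hj

theorem leaves_run (x : Fin n → Row n k) (B : Bool → Prop) (P : Proto n (Row n k)) :
    ∀ R : Rect n k, ((leaves P R).map fun l => ind (B l.2) * ind (∀ j, x j ∈ l.1 j)).sum =
      ind (B (P.run x)) * ind (∀ j, x j ∈ R j) := by
  induction P with
  | leaf b => intro R; simp [leaves, Proto.run]
  | node i f t₀ t₁ h₀ h₁ =>
    intro R
    rw [leaves, List.map_append, List.sum_append, h₀, h₁, ind_half, ind_half, Proto.run]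
    cases f (x i) <;> simp [ind]

theorem after_cover (x : Fin n → Row n k) (i : Fin n) (P : Proto n (Row n k)) :
    ∀ R : Rect n k, ((after i P R).map fun u => ind (∀ j, x j ∈ u j)).sum ≤
      P.cost i * ind (∀ j, x j ∈ R j) := by
  induction P with
  | leaf b => intro R; simp [after, Proto.cost]
  | node j f t₀ t₁ h₀ h₁ =>
    intro R
    have a₀ := h₀ (half R j f false)
    have a₁ := h₁ (half R j f true)
    have b₀ := le_max_left (t₀.cost i : ℝ) (t₁.cost i)
    have b₁ := le_max_right (t₀.cost i : ℝ) (t₁.cost i)
    have c := ind_nonneg (∀ j, x j ∈ R j)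
    simp only [after, List.map_append, List.sum_append, Proto.cost]
    rw [ind_half] at a₀ a₁
    split_ifs with h
    · simp only [List.map_cons, List.map_nil, List.sum_cons, List.sum_nil, ind_half]
      cases hf : f (x j) <;> simp [hf, ind_pos, ind_neg] at a₀ a₁ ⊢ <;> nlinarith
    · cases hf : f (x j) <;> simp [hf, ind_pos, ind_neg] at a₀ a₁ ⊢ <;> nlinarith

theorem after_cover' (x : Fin n → Row n k) (i : Fin n) (P : Proto n (Row n k)) :
    ∀ R : Rect n k, ((after i P R).map fun u => ind (∀ j, x j ∈ update u i univ j)).sum ≤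
      (2 ^ (P.cost i + 1) - 2) * ind (∀ j, x j ∈ update R i univ j) := by
  induction P with
  | leaf b => intro R; simp [after, Proto.cost]
  | node j f t₀ t₁ h₀ h₁ =>
    intro R
    have a₀ := h₀ (half R j f false)
    have a₁ := h₁ (half R j f true)
    have b₀ : (2 : ℝ) ^ (t₀.cost i + 1) ≤ 2 ^ (max (t₀.cost i) (t₁.cost i) + 1) :=
      pow_le_pow_right₀ one_le_two (by omega)
    have b₁ : (2 : ℝ) ^ (t₁.cost i + 1) ≤ 2 ^ (max (t₀.cost i) (t₁.cost i) + 1) :=
      pow_le_pow_right₀ one_le_two (by omega)
    have c := ind_nonneg (∀ j, x j ∈ update R i univ j)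
    simp only [after, List.map_append, List.sum_append, Proto.cost]
    split_ifs with h
    · subst h
      simp only [List.map_cons, List.map_nil, List.sum_cons, List.sum_nil, half, update_idem]
        at a₀ a₁ ⊢
      rw [add_comm 1, pow_succ _ (_ + 1)]
      nlinarith
    · have e : ∀ c, update (half R j f c) i univ = half (update R i univ) j f c := fun c => by
        rw [half, half, update_comm h, update_of_ne h]
      rw [e, ind_half] at a₀ a₁
      rw [zero_add]
      cases hf : f (x j) <;> simp [hf, ind_pos, ind_neg] at a₀ a₁ ⊢ <;> nlinarith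

theorem split_avg (d : Row n k → ℝ) (A : Finset (Row n k)) (f : Row n k → Bool) :
    𝔼 x, d x * ind (x ∈ A) = 𝔼 x, d x * ind (x ∈ A.filter fun x => f x = false) +
      𝔼 x, d x * ind (x ∈ A.filter fun x => f x = true) := by
  rw [← expect_add_distrib]
  refine expect_congr rfl fun x _ => ?_
  by_cases h : x ∈ A <;> cases hf : f x <;> simp [ind, h, hf]

theorem wt_update (M : ℝ) (S : Finset (Fin n)) (R : Rect n k) (i : Fin n)
    (A : Finset (Row n k)) : wt M {i} S (update R i A) = wt M {i} S R :=
  prod_congr rfl fun j _ => by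
    by_cases h : j = i
    · simp [h]
    · rw [update_of_ne h]

theorem wt_empty (M : ℝ) (S : Finset (Fin n)) (R : Rect n k) (i : Fin n) :
    wt M ∅ S R = (if i ∈ S then lt M (S.erase i) (R i) else 1) * wt M {i} S R := by
  rw [wt, wt, ← mul_prod_erase univ _ (mem_univ i), ← mul_prod_erase univ _ (mem_univ i),
    sdiff_empty, if_neg (show i ∉ S \ {i} by simp), one_mul]
  congr 1
  exact prod_congr rfl fun j hj => by simp [ne_of_mem_erase hj]

/-- The planted mass that is lost right after a bit of player `i`. -/
noncomputable def lost (M : ℝ) (S : Finset (Fin n)) (i : Fin n) (R : Rect n k) : ℝ :=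
  PR R * (wt M {i} S R * (lam (S.erase i) (R i) - lt M (S.erase i) (R i)))

theorem lost_nonneg (M : ℝ) (S : Finset (Fin n)) (i : Fin n) (R : Rect n k) :
    0 ≤ lost M S i R :=
  mul_nonneg (PR_nonneg _) (mul_nonneg (wt_nonneg _ _ _ _) (sub_nonneg.2 (lt_le_lam _ _ _)))

theorem step (M : ℝ) (S : Finset (Fin n)) (R : Rect n k) (i : Fin n) (f : Row n k → Bool) :
    PR R * wt M ∅ S R ≤ PR (half R i f false) * wt M ∅ S (half R i f false) +
      PR (half R i f true) * wt M ∅ S (half R i f true) +
      (lost M S i (half R i f false) + lost M S i (half R i f true)) := by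
  have h6 : PR R = pr (R i) * ∏ j ∈ univ.erase i, pr (R j) := by
    rw [← PR_update, update_eq_self]
  have h0 : 0 ≤ (∏ j ∈ univ.erase i, pr (R j)) * wt M {i} S R :=
    mul_nonneg (prod_nonneg fun j _ => pr_nonneg _) (wt_nonneg _ _ _ _)
  by_cases h : i ∈ S
  · simp only [wt_empty M S _ i, if_pos h, lost, half, wt_update, PR_update, update_self, h6]
    have h1 := split_avg (dens (cl k (S.erase i))) (R i) f
    simp only [← pr_mul_lam] at h1
    have h2 := mul_le_mul_of_nonneg_left (lt_le_lam M (S.erase i) (R i)) (pr_nonneg (R i))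
    rw [h1] at h2
    exact le_of_eq_of_le (by ring) ((mul_le_mul_of_nonneg_left h2 h0).trans_eq (by ring))
  · refine le_trans (le_of_eq ?_)
      (le_add_of_nonneg_right (add_nonneg (lost_nonneg _ _ _ _) (lost_nonneg _ _ _ _)))
    simp only [wt_empty M S _ i, if_neg h, half, wt_update, PR_update, h6]
    have h1 := split_avg (fun _ => 1) (R i) f
    simp only [one_mul] at h1
    rw [pr, h1, pr, pr]
    ring

theorem first_violation (M : ℝ) (S : Finset (Fin n)) (P : Proto n (Row n k)) :
    ∀ R : Rect n k, PR R * wt M ∅ S R ≤ ((leaves P R).map fun l => PR l.1 * wt M ∅ S l.1).sum +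
      ∑ i, ((after i P R).map (lost M S i)).sum := by
  induction P with
  | leaf b => intro R; simp [leaves, after]
  | node j f t₀ t₁ h₀ h₁ =>
    intro R
    have a₀ := h₀ (half R j f false)
    have a₁ := h₁ (half R j f true)
    have b := step M S R j f
    have c : ∑ i, ((if j = i then [half R j f false, half R j f true] else []).map
        (lost M S i)).sum = lost M S j (half R j f false) + lost M S j (half R j f true) := by
      rw [sum_eq_single j (fun i _ hi => by simp [hi.symm]) (by simp)]
      simp
    simp only [leaves, after, List.map_append, List.sum_append, sum_add_distrib, c]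
    linarith

end Pool.Agent.Lib.MP_21ae8a_lc.BC
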