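import Pool.Agent.Lib.MP_21ae8a_lc.BC.Replica
import Pool.Agent.Lib.MP_21ae8a_lc.BC.Moment

/-! The moment bound for the likelihood ratio of one player right after one of its bits. -/

namespace Pool.Agent.Lib.MP_21ae8a_lc.BC

open Finset Function MC
open scoped BigOperators

variable {n k : ℕ} {U : Type} [Fintype U]

theorem le_add_pow_div {F C : ℝ} (hF : 0 ≤ F) (hC : 0 < C) (ν : ℕ) :
    F ≤ C + F ^ (ν + 1) / C ^ ν := by
  rcases le_total F C with h | h
  · exact h.trans (le_add_of_nonneg_right (by positivity))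
  · have : F ≤ F ^ (ν + 1) / C ^ ν := by
      rw [le_div_iff₀ (by positivity), pow_succ']
      gcongr
    linarith

theorem choose_level {p G Φ : ℝ} {q r : ℕ} (hp : 0 ≤ p) (hp1 : p ≤ 1) (hΦ : 0 ≤ Φ)
    (h : ∀ C : ℝ, 0 < C → p ^ q * G ≤ C * p ^ q + Φ / C ^ (q * (2 * r + 2))) :
    p * G ≤ 3 * (2 * p + 1 / 2 ^ (r + 1)) + p * (Φ / 3 ^ (q * (2 * r + 2))) := by
  rcases hp.eq_or_lt with rfl | hp
  · simp only [zero_mul, mul_zero, zero_add, add_zero]
    positivity
  obtain ⟨c, hc, hc1, hc2⟩ : ∃ c : ℝ, 0 < c ∧ p * c ≤ 2 * p + 1 / 2 ^ (r + 1) ∧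
      1 ≤ c ^ (2 * r + 2) * p := by
    by_cases h4 : 1 ≤ 2 ^ (2 * r + 2) * p
    · exact ⟨2, two_pos, by rw [mul_comm]; exact le_add_of_nonneg_right (by positivity), h4⟩
    · have h5 : 1 ≤ (1 / 2 ^ (r + 1) / p) ^ 2 * p := by
        rw [div_pow, div_pow, ← pow_mul, sq p, ← div_div, div_mul_cancel₀ _ hp.ne', one_pow,
          div_div, one_le_div (by positivity), show (r + 1) * 2 = 2 * r + 2 by ring]
        exact (not_le.1 h4).le
      have h6 : 1 ≤ 1 / 2 ^ (r + 1) / p := by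
        by_contra h7
        have h8 : (1 / 2 ^ (r + 1) / p) ^ 2 < 1 :=
          pow_lt_one₀ (by positivity) (not_le.1 h7) two_ne_zero
        nlinarith [sq_nonneg (1 / 2 ^ (r + 1) / p)]
      refine ⟨1 / 2 ^ (r + 1) / p, by positivity, ?_, h5.trans ?_⟩
      · rw [mul_div_cancel₀ _ hp.ne']
        linarith
      · exact mul_le_mul_of_nonneg_right (pow_le_pow_right₀ h6 (by omega)) hp.le
  have h1 := h (3 * c) (by positivity)
  have h2 : Φ / (3 * c) ^ (q * (2 * r + 2)) ≤ Φ / 3 ^ (q * (2 * r + 2)) * p ^ q := by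
    rw [mul_pow, ← div_div, div_le_iff₀ (by positivity), mul_assoc, mul_comm q, pow_mul c,
      ← mul_pow, mul_comm p]
    exact le_mul_of_one_le_right (by positivity) (one_le_pow₀ hc2)
  have h3 : G ≤ 3 * c + Φ / 3 ^ (q * (2 * r + 2)) :=
    le_of_mul_le_mul_left (by linarith) (pow_pos hp q)
  nlinarith [mul_le_mul_of_nonneg_left h3 hp.le]

theorem PR_update (R : Rect n k) (i : Fin n) (A : Finset (Row n k)) :
    PR (update R i A) = pr A * ∏ j ∈ univ.erase i, pr (R j) := by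
  rw [PR, ← mul_prod_erase univ _ (mem_univ i), update_self]
  congr 1
  exact prod_congr rfl fun j hj => by rw [update_of_ne (ne_of_mem_erase hj)]

theorem viol {Ω : Type} [Fintype Ω] [Nonempty Ω] (s : Ω → Finset (Fin n)) (R : U → Rect n k)
    (i : Fin n) {r q : ℕ} {M : ℝ} (hM : 1 ≤ M)
    (h1 : ∀ x : Fin n → Row n k, ∑ u, ind (∀ j, x j ∈ R u j) ≤ r)
    (h2 : ∀ x : Fin n → Row n k, ∑ u, ind (∀ j, x j ∈ update (R u) i univ j) ≤ 2 ^ (r + 1))
    (hB : 𝔼 σ : Fin (q * (2 * r + 2) + 1) → Ω,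
      ∏ j, g (M * (2 ^ k) ^ q) (mult (fun a => s (σ a)) j) ≤ 3 ^ (q * (2 * r + 2))) :
    ∑ u, PR (R u) * 𝔼 ω, wt M {i} (s ω) (R u) * lam ((s ω).erase i) (R u i) ^ q ≤ 7 * r + 3 := by
  obtain ⟨F, hF⟩ : ∃ F : U → (Fin q → Row n k) → ℝ, ∀ u z, F u z =
      𝔼 ω, wt M {i} (s ω) (R u) * ∏ b, dens (cl k ((s ω).erase i)) (z b) := ⟨_, fun _ _ => rfl⟩
  have hF0 : ∀ u z, 0 ≤ F u z := fun u z => hF u z ▸ expect_nonneg fun _ _ =>
    mul_nonneg (wt_nonneg _ _ _ _) (prod_nonneg fun _ _ => dens_nonneg _ _)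
  have hA : ∀ u, pr (R u i) ^ q * 𝔼 ω, wt M {i} (s ω) (R u) * lam ((s ω).erase i) (R u i) ^ q =
      𝔼 z, F u z * ∏ b, ind (z b ∈ R u i) := fun u => by
    simp only [hF, expect_mul]
    rw [expect_comm, mul_expect]
    refine expect_congr rfl fun ω _ => ?_
    simp only [mul_assoc, ← prod_mul_distrib]
    rw [← mul_expect, avg_pow fun x => dens (cl k ((s ω).erase i)) x * ind (x ∈ R u i),
      ← pr_mul_lam, mul_pow]
    ring
  have hC : ∀ u, PR (R u) * 𝔼 ω, wt M {i} (s ω) (R u) * lam ((s ω).erase i) (R u i) ^ q ≤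
      6 * PR (R u) + 3 / 2 ^ (r + 1) * PR (update (R u) i univ) +
        PR (R u) * (𝔼 z, F u z ^ (q * (2 * r + 2) + 1)) / 3 ^ (q * (2 * r + 2)) := fun u => by
    have h3 := choose_level (r := r) (pr_nonneg (R u i)) (pr_le_one _)
      (Φ := 𝔼 z, F u z ^ (q * (2 * r + 2) + 1))
      (expect_nonneg fun z _ => pow_nonneg (hF0 u z) _) fun C hC => (hA u).trans_le (by
        have h4 : pr (R u i) ^ q = 𝔼 z : Fin q → Row n k, ∏ b, ind (z b ∈ R u i) :=
          (avg_pow (fun x => ind (x ∈ R u i)) q).symm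
        rw [h4, mul_expect, expect_div, ← expect_add_distrib]
        refine expect_le_expect fun z _ => ?_
        have h5 : 0 ≤ ∏ b, ind (z b ∈ R u i) := prod_nonneg fun _ _ => ind_nonneg _
        refine (mul_le_mul_of_nonneg_right
          (le_add_pow_div (hF0 u z) hC (q * (2 * r + 2))) h5).trans ?_
        rw [add_mul]
        exact add_le_add le_rfl (mul_le_of_le_one_right
          (div_nonneg (pow_nonneg (hF0 u z) _) (by positivity))
          (prod_le_one (fun _ _ => ind_nonneg _) fun _ _ => ind_le_one _)))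
    have h6 : PR (R u) = pr (R u i) * ∏ j ∈ univ.erase i, pr (R u j) := by
      rw [← PR_update, update_eq_self]
    have h7 := mul_le_mul_of_nonneg_left h3
      (prod_nonneg fun j _ => pr_nonneg (R u j) : 0 ≤ ∏ j ∈ univ.erase i, pr (R u j))
    rw [PR_update, pr_univ, h6]
    refine le_of_eq_of_le (by ring) (h7.trans_eq (by ring))
  have hD : ∑ u, PR (R u) * 𝔼 z, F u z ^ (q * (2 * r + 2) + 1) ≤ r * 3 ^ (q * (2 * r + 2)) := by
    generalize q * (2 * r + 2) + 1 = ρ at hB ⊢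
    have h2k : (1 : ℝ) ≤ 2 ^ k := one_le_pow₀ one_le_two
    have h3 : ∀ u, 𝔼 z, F u z ^ ρ ≤ 𝔼 σ : Fin ρ → Ω, (∏ a, wt M {i} (s (σ a)) (R u)) *
        ∏ j, g ((2 ^ k) ^ q) (mult (fun a => s (σ a)) j) := fun u => by
      have h4 : ∀ z, F u z ^ ρ = 𝔼 σ : Fin ρ → Ω, (∏ a, wt M {i} (s (σ a)) (R u)) *
          ∏ b, ∏ a, dens (cl k ((s (σ a)).erase i)) (z b) := fun z => by
        rw [hF, ← avg_pow]
        exact expect_congr rfl fun σ _ => by rw [prod_mul_distrib, prod_comm]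
      simp only [h4]
      rw [expect_comm]
      refine expect_le_expect fun σ _ => ?_
      rw [← mul_expect, avg_pow fun x => ∏ a, dens (cl k ((s (σ a)).erase i)) x]
      refine mul_le_mul_of_nonneg_left ?_ (prod_nonneg fun _ _ => wt_nonneg _ _ _ _)
      refine (pow_le_pow_left₀ (expect_nonneg fun _ _ => prod_nonneg fun _ _ => dens_nonneg _ _)
        (dens_moment fun a => (s (σ a)).erase i) q).trans ?_
      rw [← prod_pow]
      refine prod_le_prod (fun j _ => pow_nonneg (zero_le_one.trans (one_le_g h2k _)) _)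
        fun j _ => ?_
      rw [g_pow]
      exact g_mono (one_le_pow₀ h2k) (card_le_card fun a ha => by
        simp only [mem_filter, mem_univ, true_and] at ha ⊢
        exact mem_of_mem_erase ha)
    calc _ ≤ ∑ u, 𝔼 σ : Fin ρ → Ω, (PR (R u) * ∏ a, wt M {i} (s (σ a)) (R u)) *
          ∏ j, g ((2 ^ k) ^ q) (mult (fun a => s (σ a)) j) := sum_le_sum fun u _ => by
          simp only [mul_assoc]
          rw [← mul_expect]
          exact mul_le_mul_of_nonneg_left (h3 u) (PR_nonneg _)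
      _ ≤ 𝔼 σ : Fin ρ → Ω, r * ∏ j, g (M * (2 ^ k) ^ q) (mult (fun a => s (σ a)) j) := by
          rw [← expect_sum_comm]
          refine expect_le_expect fun σ _ => ?_
          simp only [← g_mul]
          rw [← sum_mul, prod_mul_distrib, ← mul_assoc]
          exact mul_le_mul_of_nonneg_right (replica R hM h1 _ _)
            (prod_nonneg fun j _ => zero_le_one.trans (one_le_g (one_le_pow₀ h2k) _))
      _ ≤ _ := by
          rw [← mul_expect]
          exact mul_le_mul_of_nonneg_left hB (Nat.cast_nonneg _)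
  refine (sum_le_sum fun u _ => hC u).trans ?_
  rw [sum_add_distrib, sum_add_distrib, ← mul_sum, ← mul_sum, ← sum_div]
  have h8 := cover_PR R h1
  have h9 := mul_le_mul_of_nonneg_left (cover_PR (fun u => update (R u) i univ) h2)
    (show (0 : ℝ) ≤ 3 / 2 ^ (r + 1) by positivity)
  rw [div_mul_cancel₀ _ (by positivity)] at h9
  rw [← div_le_iff₀ (by positivity)] at hD
  linarith

end Pool.Agent.Lib.MP_21ae8a_lc.BC
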